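import Pool.Agent.Lib.MP_7dc3d9_gt.Calc

set_option autoImplicit false
set_option linter.unusedSimpArgs false

open MvPolynomial

namespace Pool.Agent.Lib.MP_7dc3d9_gt

lemma pderiv_comm' (i j : Fin 3) (U : MvPolynomial (Fin 3) ℝ) :
    pderiv i (pderiv j U) = pderiv j (pderiv i U) := by
  induction U using MvPolynomial.induction_on with
  | C a => simp
  | add p q hp hq => simp [hp, hq]
  | mul_X p n hp =>
    fin_cases i <;> fin_cases j <;> fin_cases n <;>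
      simp [pderiv_mul, pderiv_X, Pi.single_apply] at hp ⊢ <;> (try rw [hp]) <;> ring

lemma Eul_zero : Eul 0 = 0 := by simp [Eul]

lemma Eul_C (c : ℝ) : Eul (C c) = 0 := by simp [Eul]

lemma Eul_add (p q : MvPolynomial (Fin 3) ℝ) : Eul (p + q) = Eul p + Eul q := by
  simp [Eul, Fin.sum_univ_three]; ring

lemma Eul_sub (p q : MvPolynomial (Fin 3) ℝ) : Eul (p - q) = Eul p - Eul q := by
  simp [Eul, Fin.sum_univ_three]; ring

lemma Eul_mul (p q : MvPolynomial (Fin 3) ℝ) : Eul (p * q) = Eul p * q + p * Eul q := by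
  simp [Eul, Fin.sum_univ_three, pderiv_mul]; ring

lemma Eul_X (j : Fin 3) : Eul (X j) = X j := by
  fin_cases j <;> simp [Eul, Fin.sum_univ_three, pderiv_X, Pi.single_apply]

lemma Eul_sum {ι : Type*} (s : Finset ι) (f : ι → MvPolynomial (Fin 3) ℝ) :
    Eul (∑ i ∈ s, f i) = ∑ i ∈ s, Eul (f i) := by
  simp only [Eul, map_sum, Finset.mul_sum]
  rw [Finset.sum_comm]

lemma pderiv_Eul (j : Fin 3) (U : MvPolynomial (Fin 3) ℝ) :
    pderiv j (Eul U) = pderiv j U + (X 0 * pderiv j (pderiv 0 U) + X 1 * pderiv j (pderiv 1 U)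
      + X 2 * pderiv j (pderiv 2 U)) := by
  fin_cases j <;> simp [Eul, Fin.sum_univ_three, pderiv_mul, pderiv_X, Pi.single_apply] <;> ring

lemma Eul_pderiv (j : Fin 3) (U : MvPolynomial (Fin 3) ℝ) :
    Eul (pderiv j U) = pderiv j (Eul U) - pderiv j U := by
  rw [pderiv_Eul, pderiv_comm' j 0, pderiv_comm' j 1, pderiv_comm' j 2]
  simp [Eul, Fin.sum_univ_three]

/-- The value `U - Eul U`. -/
noncomputable def aa (U : MvPolynomial (Fin 3) ℝ) : MvPolynomial (Fin 3) ℝ := U - Eul U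

/-- `D²U · X`. -/
noncomputable def pp (i : Fin 3) (U : MvPolynomial (Fin 3) ℝ) : MvPolynomial (Fin 3) ℝ :=
  pderiv i (Eul U) - pderiv i U

/-- `Xᵀ · D²U · X`. -/
noncomputable def al (U : MvPolynomial (Fin 3) ℝ) : MvPolynomial (Fin 3) ℝ :=
  Eul (Eul U) - Eul U

lemma Tn_Gr (i j : Fin 3) (U : MvPolynomial (Fin 3) ℝ) :
    Tn i (Gr j U) = pderiv i (pderiv j U) + (if i = j then aa U else 0)
      - X j * pp i U - X i * pp j U + X i * X j * (al U - aa U) := by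
  have h1 : Gr j U = X j * aa U + pderiv j U := by
    simp only [Gr, aa]; ring
  rw [h1]
  have h2 : Eul (X j * aa U + pderiv j U) = X j * aa U - X j * al U + pp j U := by
    rw [Eul_add, Eul_mul, Eul_X, Eul_pderiv]
    simp only [aa, al, pp, Eul_sub]
    ring
  have h3 : pderiv i (X j * aa U + pderiv j U) = (if i = j then aa U else 0) - X j * pp i U
      + pderiv i (pderiv j U) := by
    rw [map_add, pderiv_mul, pderiv_X]
    have : pderiv i (aa U) = - pp i U := by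
      simp only [aa, pp, map_sub]; ring
    rw [this]
    by_cases hij : i = j
    · subst hij; simp; ring
    · have : (Pi.single j 1 : Fin 3 → MvPolynomial (Fin 3) ℝ) i = 0 := by
        simp [Pi.single_apply, hij]
      simp [Pi.single_apply, hij, this]
  simp only [Tn]
  rw [h2, h3]
  ring

/-- the polarised curvature function, as a polynomial -/
noncomputable def BB (U V : MvPolynomial (Fin 3) ℝ) : MvPolynomial (Fin 3) ℝ :=
  (Tn 0 (Gr 0 U) * Tn 1 (Gr 1 V) + Tn 1 (Gr 1 U) * Tn 0 (Gr 0 V)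
    - Tn 0 (Gr 1 U) * Tn 1 (Gr 0 V) - Tn 1 (Gr 0 U) * Tn 0 (Gr 1 V))
  + (Tn 0 (Gr 0 U) * Tn 2 (Gr 2 V) + Tn 2 (Gr 2 U) * Tn 0 (Gr 0 V)
    - Tn 0 (Gr 2 U) * Tn 2 (Gr 0 V) - Tn 2 (Gr 0 U) * Tn 0 (Gr 2 V))
  + (Tn 1 (Gr 1 U) * Tn 2 (Gr 2 V) + Tn 2 (Gr 2 U) * Tn 1 (Gr 1 V)
    - Tn 1 (Gr 2 U) * Tn 2 (Gr 1 V) - Tn 2 (Gr 1 U) * Tn 1 (Gr 2 V))

/-- lower order part -/
noncomputable def ZZ (U V : MvPolynomial (Fin 3) ℝ) : MvPolynomial (Fin 3) ℝ :=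
  (∑ i, pderiv i (pderiv i U)) * (∑ i, pderiv i (pderiv i V))
    - (∑ i, pderiv i (pderiv i U)) * al V - (∑ i, pderiv i (pderiv i V)) * al U
    - (∑ i, ∑ j, pderiv i (pderiv j U) * pderiv i (pderiv j V))
    + 2 * ∑ i, pp i U * pp i V

/-- reduced form of the polarised curvature function on the unit sphere -/
noncomputable def WW (U V : MvPolynomial (Fin 3) ℝ) : MvPolynomial (Fin 3) ℝ :=
  2 * aa U * aa V + aa U * ((∑ i, pderiv i (pderiv i V)) - al V)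
    + aa V * ((∑ i, pderiv i (pderiv i U)) - al U) + ZZ U V

lemma pp_eq (i : Fin 3) (U : MvPolynomial (Fin 3) ℝ) :
    pp i U = X 0 * pderiv i (pderiv 0 U) + X 1 * pderiv i (pderiv 1 U)
      + X 2 * pderiv i (pderiv 2 U) := by
  rw [pp, pderiv_Eul]; ring

lemma al_eq (U : MvPolynomial (Fin 3) ℝ) :
    al U = X 0 * pp 0 U + X 1 * pp 1 U + X 2 * pp 2 U := by
  simp only [al, pp]
  simp only [mul_sub]
  have h1 : Eul (Eul U) = X 0 * pderiv 0 (Eul U) + X 1 * pderiv 1 (Eul U)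
    + X 2 * pderiv 2 (Eul U) := by
    conv_lhs => rw [Eul]
    rw [Fin.sum_univ_three]
  have h2 : Eul U = X 0 * pderiv 0 U + X 1 * pderiv 1 U + X 2 * pderiv 2 U := by
    rw [Eul, Fin.sum_univ_three]
  rw [h1]
  linear_combination -h2

lemma numkey (u0 u1 u2 a b h00 h01 h02 h11 h12 h22 k00 k01 k02 k11 k12 k22
    p0 p1 p2 q0 q1 q2 α β : ℝ)
    (hu : u0 ^ 2 + u1 ^ 2 + u2 ^ 2 = 1)
    (hp0 : p0 = u0 * h00 + u1 * h01 + u2 * h02)
    (hp1 : p1 = u0 * h01 + u1 * h11 + u2 * h12)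
    (hp2 : p2 = u0 * h02 + u1 * h12 + u2 * h22)
    (hq0 : q0 = u0 * k00 + u1 * k01 + u2 * k02)
    (hq1 : q1 = u0 * k01 + u1 * k11 + u2 * k12)
    (hq2 : q2 = u0 * k02 + u1 * k12 + u2 * k22)
    (hα : α = u0 * p0 + u1 * p1 + u2 * p2)
    (hβ : β = u0 * q0 + u1 * q1 + u2 * q2)
    (A B : Fin 3 → Fin 3 → ℝ)
    (hA00 : A 0 0 = h00 + a - u0 * p0 - u0 * p0 + u0 * u0 * (α - a))
    (hA11 : A 1 1 = h11 + a - u1 * p1 - u1 * p1 + u1 * u1 * (α - a))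
    (hA22 : A 2 2 = h22 + a - u2 * p2 - u2 * p2 + u2 * u2 * (α - a))
    (hA01 : A 0 1 = h01 - u1 * p0 - u0 * p1 + u0 * u1 * (α - a))
    (hA10 : A 1 0 = h01 - u0 * p1 - u1 * p0 + u1 * u0 * (α - a))
    (hA02 : A 0 2 = h02 - u2 * p0 - u0 * p2 + u0 * u2 * (α - a))
    (hA20 : A 2 0 = h02 - u0 * p2 - u2 * p0 + u2 * u0 * (α - a))
    (hA12 : A 1 2 = h12 - u2 * p1 - u1 * p2 + u1 * u2 * (α - a))
    (hA21 : A 2 1 = h12 - u1 * p2 - u2 * p1 + u2 * u1 * (α - a))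
    (hB00 : B 0 0 = k00 + b - u0 * q0 - u0 * q0 + u0 * u0 * (β - b))
    (hB11 : B 1 1 = k11 + b - u1 * q1 - u1 * q1 + u1 * u1 * (β - b))
    (hB22 : B 2 2 = k22 + b - u2 * q2 - u2 * q2 + u2 * u2 * (β - b))
    (hB01 : B 0 1 = k01 - u1 * q0 - u0 * q1 + u0 * u1 * (β - b))
    (hB10 : B 1 0 = k01 - u0 * q1 - u1 * q0 + u1 * u0 * (β - b))
    (hB02 : B 0 2 = k02 - u2 * q0 - u0 * q2 + u0 * u2 * (β - b))
    (hB20 : B 2 0 = k02 - u0 * q2 - u2 * q0 + u2 * u0 * (β - b))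
    (hB12 : B 1 2 = k12 - u2 * q1 - u1 * q2 + u1 * u2 * (β - b))
    (hB21 : B 2 1 = k12 - u1 * q2 - u2 * q1 + u2 * u1 * (β - b)) :
    (A 0 0 * B 1 1 + A 1 1 * B 0 0 - A 0 1 * B 1 0 - A 1 0 * B 0 1)
    + (A 0 0 * B 2 2 + A 2 2 * B 0 0 - A 0 2 * B 2 0 - A 2 0 * B 0 2)
    + (A 1 1 * B 2 2 + A 2 2 * B 1 1 - A 1 2 * B 2 1 - A 2 1 * B 1 2)
    = 2 * a * b + a * ((k00 + k11 + k22) - β) + b * ((h00 + h11 + h22) - α)
      + ((h00 + h11 + h22) * (k00 + k11 + k22) - (h00 + h11 + h22) * β - (k00 + k11 + k22) * α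
        - (h00 * k00 + h11 * k11 + h22 * k22 + 2 * (h01 * k01 + h02 * k02 + h12 * k12))
        + 2 * (p0 * q0 + p1 * q1 + p2 * q2)) := by
  -- the trace of each matrix
  have tA : A 0 0 + A 1 1 + A 2 2 = (h00 + h11 + h22) - α + 2 * a := by
    rw [hA00, hA11, hA22]
    linear_combination (-2 : ℝ) * (-hα) + (α - a) * hu
  have tB : B 0 0 + B 1 1 + B 2 2 = (k00 + k11 + k22) - β + 2 * b := by
    rw [hB00, hB11, hB22]
    linear_combination (-2 : ℝ) * (-hβ) + (β - b) * hu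
  have tAB : A 0 0 * B 0 0 + A 1 1 * B 1 1 + A 2 2 * B 2 2 + (A 0 1 * B 1 0 + A 1 0 * B 0 1)
      + (A 0 2 * B 2 0 + A 2 0 * B 0 2) + (A 1 2 * B 2 1 + A 2 1 * B 1 2)
      = (h00 * k00 + h11 * k11 + h22 * k22 + 2 * (h01 * k01 + h02 * k02 + h12 * k12))
        - 2 * (p0 * q0 + p1 * q1 + p2 * q2) + b * ((h00 + h11 + h22) - α)
        + a * ((k00 + k11 + k22) - β) + α * β + 2 * a * b := by
    rw [hA00, hA11, hA22, hA01, hA10, hA02, hA20, hA12, hA21,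
      hB00, hB11, hB22, hB01, hB10, hB02, hB20, hB12, hB21]
    linear_combination (2 * q0 - (β - b) * u0) * hp0 + (2 * q1 - (β - b) * u1) * hp1
      + (2 * q2 - (β - b) * u2) * hp2
      + (2 * p0 - (α - a) * u0) * hq0 + (2 * p1 - (α - a) * u1) * hq1
      + (2 * p2 - (α - a) * u2) * hq2
      - ((β - b) - 2 * b - 2 * (β - b) * (u0 ^ 2 + u1 ^ 2 + u2 ^ 2)
          + 2 * (u0 * q0 + u1 * q1 + u2 * q2)) * hα
      - (-2 * a + (α - a) - 2 * (α - a) * (u0 ^ 2 + u1 ^ 2 + u2 ^ 2) + 2 * α) * hβ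
      + (2 * (p0 * q0 + p1 * q1 + p2 * q2) - 2 * (β - b) * α - 2 * (α - a) * β
          + (u0 ^ 2 + u1 ^ 2 + u2 ^ 2 + 1) * (α - a) * (β - b) + (α - a) * b + a * (β - b)) * hu
  linear_combination (B 0 0 + B 1 1 + B 2 2) * tA
    + ((h00 + h11 + h22) - α + 2 * a) * tB - tAB

lemma eval_BB (U V : MvPolynomial (Fin 3) ℝ) (u : Fin 3 → ℝ)
    (hu : u 0 ^ 2 + u 1 ^ 2 + u 2 ^ 2 = 1) :
    eval u (BB U V) = eval u (WW U V) := by
  have key := numkey (u 0) (u 1) (u 2) (eval u (aa U)) (eval u (aa V))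
    (eval u (pderiv 0 (pderiv 0 U))) (eval u (pderiv 0 (pderiv 1 U)))
    (eval u (pderiv 0 (pderiv 2 U))) (eval u (pderiv 1 (pderiv 1 U)))
    (eval u (pderiv 1 (pderiv 2 U))) (eval u (pderiv 2 (pderiv 2 U)))
    (eval u (pderiv 0 (pderiv 0 V))) (eval u (pderiv 0 (pderiv 1 V)))
    (eval u (pderiv 0 (pderiv 2 V))) (eval u (pderiv 1 (pderiv 1 V)))
    (eval u (pderiv 1 (pderiv 2 V))) (eval u (pderiv 2 (pderiv 2 V)))
    (eval u (pp 0 U)) (eval u (pp 1 U)) (eval u (pp 2 U))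
    (eval u (pp 0 V)) (eval u (pp 1 V)) (eval u (pp 2 V))
    (eval u (al U)) (eval u (al V)) hu
    (by rw [pp_eq]; simp)
    (by rw [pp_eq, pderiv_comm' 1 0]; simp)
    (by rw [pp_eq, pderiv_comm' 2 0, pderiv_comm' 2 1]; simp)
    (by rw [pp_eq]; simp)
    (by rw [pp_eq, pderiv_comm' 1 0]; simp)
    (by rw [pp_eq, pderiv_comm' 2 0, pderiv_comm' 2 1]; simp)
    (by rw [al_eq]; simp)
    (by rw [al_eq]; simp)
    (fun i j => eval u (Tn i (Gr j U))) (fun i j => eval u (Tn i (Gr j V)))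
    (by simp only [Tn_Gr]; simp) (by simp only [Tn_Gr]; simp)
    (by simp only [Tn_Gr]; simp) (by simp only [Tn_Gr]; simp)
    (by simp only [Tn_Gr, pderiv_comm' 1 0]; simp)
    (by simp only [Tn_Gr]; simp)
    (by simp only [Tn_Gr, pderiv_comm' 2 0]; simp)
    (by simp only [Tn_Gr]; simp)
    (by simp only [Tn_Gr, pderiv_comm' 2 1]; simp)
    (by simp only [Tn_Gr]; simp) (by simp only [Tn_Gr]; simp)
    (by simp only [Tn_Gr]; simp) (by simp only [Tn_Gr]; simp)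
    (by simp only [Tn_Gr, pderiv_comm' 1 0]; simp)
    (by simp only [Tn_Gr]; simp)
    (by simp only [Tn_Gr, pderiv_comm' 2 0]; simp)
    (by simp only [Tn_Gr]; simp)
    (by simp only [Tn_Gr, pderiv_comm' 2 1]; simp)
  simp only [BB, WW, ZZ, Fin.sum_univ_three, map_add, map_sub, map_mul, map_ofNat]
  rw [pderiv_comm' 1 0 U, pderiv_comm' 2 0 U, pderiv_comm' 2 1 U,
    pderiv_comm' 1 0 V, pderiv_comm' 2 0 V, pderiv_comm' 2 1 V]
  linear_combination key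

end Pool.Agent.Lib.MP_7dc3d9_gt
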