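import Mathlib

set_option autoImplicit false
set_option linter.unusedSimpArgs false

open MvPolynomial

namespace Pool.Agent.Lib.MP_7dc3d9_gt

/-- derivative of a polynomial function -/
lemma hasFDerivAt_eval (Q : MvPolynomial (Fin 3) ℝ) (y : EuclideanSpace ℝ (Fin 3)) :
    HasFDerivAt (fun z : EuclideanSpace ℝ (Fin 3) => eval (fun i => z i) Q)
      (∑ i, (eval (fun i => y i) (pderiv i Q)) •
        (EuclideanSpace.proj i : EuclideanSpace ℝ (Fin 3) →L[ℝ] ℝ)) y := by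
  induction Q using MvPolynomial.induction_on with
  | C a =>
    simp only [eval_C, pderiv_C, map_zero, zero_smul, Finset.sum_const_zero]
    exact hasFDerivAt_const _ _
  | add p q hp hq =>
    have := hp.fun_add hq
    simp only [map_add, add_smul, Finset.sum_add_distrib]
    exact this
  | mul_X p n hp =>
    have h1 : HasFDerivAt (fun z : EuclideanSpace ℝ (Fin 3) => z n)
        (EuclideanSpace.proj n : EuclideanSpace ℝ (Fin 3) →L[ℝ] ℝ) y :=
      (EuclideanSpace.proj n : EuclideanSpace ℝ (Fin 3) →L[ℝ] ℝ).hasFDerivAt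
    have := hp.fun_mul h1
    simp only [map_mul, eval_X]
    refine this.congr_fderiv ?_
    ext v
    fin_cases n <;>
      simp [Fin.sum_univ_three, pderiv_mul, pderiv_X, Pi.single_apply] <;> ring

/-- derivative of the norm away from the origin -/
lemma hasFDerivAt_nrm (x : EuclideanSpace ℝ (Fin 3)) (hx : x ≠ 0) :
    HasFDerivAt (fun z : EuclideanSpace ℝ (Fin 3) => ‖z‖) (‖x‖⁻¹ • innerSL ℝ x) x := by
  have h0 : ‖x‖ ≠ 0 := norm_ne_zero_iff.mpr hx
  have h1 : HasFDerivAt (fun z : EuclideanSpace ℝ (Fin 3) => ‖z‖ ^ 2) (2 • innerSL ℝ x) x :=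
    (hasStrictFDerivAt_norm_sq x).hasFDerivAt
  have h2 := h1.sqrt (by positivity)
  have h3 : (fun z : EuclideanSpace ℝ (Fin 3) => √(‖z‖ ^ 2)) = fun z => ‖z‖ := by
    funext z; exact Real.sqrt_sq (norm_nonneg z)
  rw [h3] at h2
  refine h2.congr_fderiv ?_
  rw [Real.sqrt_sq (norm_nonneg x)]
  ext v
  simp
  field_simp

/-- derivative of the radial projection away from the origin -/
lemma hasFDerivAt_nproj (x : EuclideanSpace ℝ (Fin 3)) (hx : x ≠ 0) :
    HasFDerivAt (fun z : EuclideanSpace ℝ (Fin 3) => ‖z‖⁻¹ • z)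
      (‖x‖⁻¹ • (ContinuousLinearMap.id ℝ (EuclideanSpace ℝ (Fin 3))
        - (innerSL ℝ (‖x‖⁻¹ • x)).smulRight (‖x‖⁻¹ • x))) x := by
  have h0 : ‖x‖ ≠ 0 := norm_ne_zero_iff.mpr hx
  have h1 := (hasDerivAt_inv h0).comp_hasFDerivAt x (hasFDerivAt_nrm x hx)
  have h2 := h1.fun_smul (hasFDerivAt_id x)
  refine h2.congr_fderiv ?_
  ext v i
  simp [PiLp.inner_apply, Fin.sum_univ_three]
  field_simp
  ring

/-- Euler operator -/
noncomputable def Eul (Q : MvPolynomial (Fin 3) ℝ) : MvPolynomial (Fin 3) ℝ :=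
  ∑ k, X k * pderiv k Q

/-- components of the gradient of the 1-homogeneous extension of `U` restricted to the sphere -/
noncomputable def Gr (j : Fin 3) (U : MvPolynomial (Fin 3) ℝ) : MvPolynomial (Fin 3) ℝ :=
  X j * U + pderiv j U - X j * Eul U

/-- tangential derivative -/
noncomputable def Tn (i : Fin 3) (Q : MvPolynomial (Fin 3) ℝ) : MvPolynomial (Fin 3) ℝ :=
  pderiv i Q - X i * Eul Q

/-- derivative of the 0-homogeneous extension -/
lemma hasFDerivAt_evalN (Q : MvPolynomial (Fin 3) ℝ) (x : EuclideanSpace ℝ (Fin 3))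
    (hx : x ≠ 0) :
    HasFDerivAt (fun z : EuclideanSpace ℝ (Fin 3) => eval (fun i => (‖z‖⁻¹ • z) i) Q)
      (‖x‖⁻¹ • ∑ i, (eval (fun i => (‖x‖⁻¹ • x) i) (Tn i Q)) •
        (EuclideanSpace.proj i : EuclideanSpace ℝ (Fin 3) →L[ℝ] ℝ)) x := by
  have h1 := HasFDerivAt.comp (f := fun z : EuclideanSpace ℝ (Fin 3) => ‖z‖⁻¹ • z) x
    (hasFDerivAt_eval Q (‖x‖⁻¹ • x)) (hasFDerivAt_nproj x hx)
  refine h1.congr_fderiv ?_
  ext v
  simp only [Tn, Eul, map_sub, map_mul, map_sum, eval_X]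
  simp [Fin.sum_univ_three, PiLp.inner_apply]
  ring

/-- derivative of the 1-homogeneous extension -/
lemma hasFDerivAt_hom (U : MvPolynomial (Fin 3) ℝ) (x : EuclideanSpace ℝ (Fin 3))
    (hx : x ≠ 0) :
    HasFDerivAt (fun z : EuclideanSpace ℝ (Fin 3) => ‖z‖ * eval (fun i => (‖z‖⁻¹ • z) i) U)
      (∑ i, (eval (fun i => (‖x‖⁻¹ • x) i) (Gr i U)) •
        (EuclideanSpace.proj i : EuclideanSpace ℝ (Fin 3) →L[ℝ] ℝ)) x := by
  have h0 : ‖x‖ ≠ 0 := norm_ne_zero_iff.mpr hx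
  have h1 := (hasFDerivAt_nrm x hx).fun_mul (hasFDerivAt_evalN U x hx)
  refine h1.congr_fderiv ?_
  ext v
  simp only [Gr, Tn, Eul, map_sub, map_add, map_mul, map_sum, eval_X]
  simp [Fin.sum_univ_three, PiLp.inner_apply]
  field_simp
  ring

/-- the Hessian entries of the 1-homogeneous extension at a unit vector -/
lemma fderiv_fderiv_hom (U : MvPolynomial (Fin 3) ℝ) (u : EuclideanSpace ℝ (Fin 3))
    (hu : ‖u‖ = 1) (i j : Fin 3) :
    fderiv ℝ (fderiv ℝ (fun z : EuclideanSpace ℝ (Fin 3) =>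
      ‖z‖ * eval (fun i => (‖z‖⁻¹ • z) i) U)) u (EuclideanSpace.single i (1 : ℝ))
        (EuclideanSpace.single j (1 : ℝ)) = eval (fun i => u i) (Tn i (Gr j U)) := by
  have hu0 : u ≠ 0 := by
    intro h; rw [h, norm_zero] at hu; norm_num at hu
  have h1 : fderiv ℝ (fun z : EuclideanSpace ℝ (Fin 3) =>
      ‖z‖ * eval (fun i => (‖z‖⁻¹ • z) i) U) =ᶠ[nhds u]
      fun x => ∑ k, (eval (fun i => (‖x‖⁻¹ • x) i) (Gr k U)) •
        (EuclideanSpace.proj k : EuclideanSpace ℝ (Fin 3) →L[ℝ] ℝ) := by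
    filter_upwards [isOpen_ne.mem_nhds hu0] with x hx
    exact (hasFDerivAt_hom U x hx).fderiv
  rw [h1.fderiv_eq]
  have h2 : HasFDerivAt (fun x : EuclideanSpace ℝ (Fin 3) =>
      ∑ k, (eval (fun i => (‖x‖⁻¹ • x) i) (Gr k U)) •
        (EuclideanSpace.proj k : EuclideanSpace ℝ (Fin 3) →L[ℝ] ℝ))
      (∑ k, (‖u‖⁻¹ • ∑ i, (eval (fun i => (‖u‖⁻¹ • u) i) (Tn i (Gr k U))) •
        (EuclideanSpace.proj i : EuclideanSpace ℝ (Fin 3) →L[ℝ] ℝ)).smulRight
        (EuclideanSpace.proj k : EuclideanSpace ℝ (Fin 3) →L[ℝ] ℝ)) u := by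
    refine HasFDerivAt.fun_sum fun k _ => ?_
    exact (hasFDerivAt_evalN (Gr k U) u hu0).smul_const
      (EuclideanSpace.proj k : EuclideanSpace ℝ (Fin 3) →L[ℝ] ℝ)
  rw [h2.fderiv]
  simp only [hu, inv_one, one_smul]
  fin_cases i <;> fin_cases j <;> simp [Fin.sum_univ_three]

end Pool.Agent.Lib.MP_7dc3d9_gt
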