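import Pool.Agent.Lib.MP_7dc3d9_gt.Alg

set_option autoImplicit false
set_option linter.unusedSimpArgs false

open MvPolynomial

namespace Pool.Agent.Lib.MP_7dc3d9_gt

lemma totalDegree_le_iff' (p : MvPolynomial (Fin 3) ℝ) (M : ℕ) :
    p.totalDegree ≤ M ↔ ∀ d : Fin 3 →₀ ℕ, M < d.degree → coeff d p = 0 := by
  constructor
  · intro h d hd
    by_contra hne
    have := le_totalDegree (mem_support_iff.mpr hne)
    have h2 : (d.sum fun _ e => e) = d.degree := rfl
    omega
  · intro h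
    refine Finset.sup_le fun d hd => ?_
    by_contra hlt
    push Not at hlt
    exact (mem_support_iff.mp hd) (h d hlt)

lemma sum_hc (p : MvPolynomial (Fin 3) ℝ) (M : ℕ) (h : p.totalDegree ≤ M) :
    ∑ i ∈ Finset.range (M + 1), homogeneousComponent i p = p := by
  ext d
  rw [coeff_sum]
  simp only [coeff_homogeneousComponent]
  by_cases hd : d.degree ≤ M
  · rw [Finset.sum_ite_eq]
    simp [Nat.lt_succ_iff.mpr hd]
  · push Not at hd
    rw [(totalDegree_le_iff' p M).mp h d hd]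
    simp

lemma hc_mul (p q : MvPolynomial (Fin 3) ℝ) (m n : ℕ) (hp : p.totalDegree ≤ m)
    (hq : q.totalDegree ≤ n) :
    homogeneousComponent (m + n) (p * q)
      = homogeneousComponent m p * homogeneousComponent n q := by
  conv_lhs => rw [← sum_hc p m hp, ← sum_hc q n hq, Finset.sum_mul_sum]
  rw [map_sum]
  simp only [map_sum]
  have key : ∀ i ∈ Finset.range (m + 1), ∀ j ∈ Finset.range (n + 1),
      homogeneousComponent (m + n) (homogeneousComponent i p * homogeneousComponent j q)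
      = if i = m ∧ j = n then homogeneousComponent m p * homogeneousComponent n q else 0 := by
    intro i hi j hj
    rw [Finset.mem_range] at hi hj
    have hmem : homogeneousComponent i p * homogeneousComponent j q
        ∈ homogeneousSubmodule (Fin 3) ℝ (i + j) :=
      (homogeneousComponent_isHomogeneous i p).mul (homogeneousComponent_isHomogeneous j q)
    rw [homogeneousComponent_of_mem hmem]
    by_cases h : i = m ∧ j = n
    · obtain ⟨h1, h2⟩ := h
      subst h1; subst h2; simp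
    · have : m + n ≠ i + j := by
        intro h3; apply h; omega
      simp [h, this]
  rw [Finset.sum_congr rfl fun i hi => Finset.sum_congr rfl fun j hj => key i hi j hj]
  rw [Finset.sum_eq_single m, Finset.sum_eq_single n]
  · simp
  · intro j _ hj; simp [hj]
  · intro h; exact absurd (Finset.mem_range.mpr (Nat.lt_succ_self n)) h
  · intro i _ hi
    refine Finset.sum_eq_zero fun j _ => by simp [hi]
  · intro h; exact absurd (Finset.mem_range.mpr (Nat.lt_succ_self m)) h

lemma Eul_hc (n : ℕ) (p : MvPolynomial (Fin 3) ℝ) :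
    Eul (homogeneousComponent n p) = C (n : ℝ) * homogeneousComponent n p := by
  have := (homogeneousComponent_isHomogeneous n p).sum_X_mul_pderiv
  rw [Eul, this]
  simp [nsmul_eq_mul]

lemma Eul_eq_sum (p : MvPolynomial (Fin 3) ℝ) (M : ℕ) (h : p.totalDegree ≤ M) :
    Eul p = ∑ i ∈ Finset.range (M + 1), C (i : ℝ) * homogeneousComponent i p := by
  conv_lhs => rw [← sum_hc p M h, Eul_sum]
  exact Finset.sum_congr rfl fun i _ => Eul_hc i p

lemma totalDegree_Eul_le (p : MvPolynomial (Fin 3) ℝ) (M : ℕ) (h : p.totalDegree ≤ M) :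
    (Eul p).totalDegree ≤ M := by
  rw [Eul_eq_sum p M h]
  refine totalDegree_finsetSum_le fun i hi => ?_
  rw [Finset.mem_range] at hi
  refine (totalDegree_mul _ _).trans ?_
  rw [totalDegree_C, zero_add]
  exact (homogeneousComponent_isHomogeneous i p).totalDegree_le.trans (by omega)

lemma hc_Eul (p : MvPolynomial (Fin 3) ℝ) (M : ℕ) (h : p.totalDegree ≤ M) :
    homogeneousComponent M (Eul p) = C (M : ℝ) * homogeneousComponent M p := by
  rw [Eul_eq_sum p M h, map_sum, Finset.sum_eq_single M]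
  · rw [homogeneousComponent_C_mul, homogeneousComponent_eq_self
      (homogeneousComponent_isHomogeneous M p)]
  · intro i _ hi
    rw [homogeneousComponent_C_mul, homogeneousComponent_of_mem
      (homogeneousComponent_isHomogeneous i p)]
    simp [Ne.symm hi]
  · intro h; exact absurd (Finset.mem_range.mpr (Nat.lt_succ_self M)) h

lemma totalDegree_pderiv_le (p : MvPolynomial (Fin 3) ℝ) (i : Fin 3) (M : ℕ)
    (h : p.totalDegree ≤ M) : (pderiv i p).totalDegree ≤ M := by
  rw [totalDegree_le_iff'] at h ⊢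
  intro d hd
  rw [coeff_pderiv, h (d + Finsupp.single i 1) (by rw [map_add, Finsupp.degree_single]; omega)]
  simp

lemma hc_pderiv (p : MvPolynomial (Fin 3) ℝ) (i : Fin 3) (M : ℕ)
    (h : p.totalDegree ≤ M) : homogeneousComponent M (pderiv i p) = 0 := by
  rw [totalDegree_le_iff'] at h
  ext d
  rw [coeff_homogeneousComponent, coeff_zero]
  split_ifs with hd
  · rw [coeff_pderiv, h (d + Finsupp.single i 1) (by rw [map_add, Finsupp.degree_single]; omega)]
    simp
  · rfl

/-- `p` has degree at most `m` and its component of degree `m` is `f`. -/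
def LF (m : ℕ) (p f : MvPolynomial (Fin 3) ℝ) : Prop :=
  p.totalDegree ≤ m ∧ homogeneousComponent m p = f

lemma LF.add {m : ℕ} {p q f g : MvPolynomial (Fin 3) ℝ} (hp : LF m p f) (hq : LF m q g) :
    LF m (p + q) (f + g) :=
  ⟨(totalDegree_add _ _).trans (max_le hp.1 hq.1), by rw [map_add, hp.2, hq.2]⟩

lemma LF.sub {m : ℕ} {p q f g : MvPolynomial (Fin 3) ℝ} (hp : LF m p f) (hq : LF m q g) :
    LF m (p - q) (f - g) :=
  ⟨(totalDegree_sub _ _).trans (max_le hp.1 hq.1), by rw [map_sub, hp.2, hq.2]⟩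

lemma LF.mul {m n : ℕ} {p q f g : MvPolynomial (Fin 3) ℝ} (hp : LF m p f) (hq : LF n q g) :
    LF (m + n) (p * q) (f * g) :=
  ⟨(totalDegree_mul _ _).trans (add_le_add hp.1 hq.1), by
    rw [hc_mul p q m n hp.1 hq.1, hp.2, hq.2]⟩

lemma LF.Cmul {m : ℕ} {p f : MvPolynomial (Fin 3) ℝ} (c : ℝ) (hp : LF m p f) :
    LF m (C c * p) (C c * f) := by
  have h0 : LF 0 (C c : MvPolynomial (Fin 3) ℝ) (C c) :=
    ⟨by rw [totalDegree_C], by simp⟩
  have := h0.mul hp
  rwa [zero_add] at this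

lemma LF.two_mul {m : ℕ} {p f : MvPolynomial (Fin 3) ℝ} (hp : LF m p f) :
    LF m (2 * p) (2 * f) := by
  have e : (2 : MvPolynomial (Fin 3) ℝ) = C 2 := (map_ofNat C 2).symm
  rw [e]
  exact hp.Cmul 2

lemma LF.Eul {m : ℕ} {p f : MvPolynomial (Fin 3) ℝ} (hp : LF m p f) :
    LF m (Eul p) (C (m : ℝ) * f) :=
  ⟨totalDegree_Eul_le p m hp.1, by rw [hc_Eul p m hp.1, hp.2]⟩

lemma LF.pd {m : ℕ} {p f : MvPolynomial (Fin 3) ℝ} (i : Fin 3) (hp : LF m p f) :
    LF m (pderiv i p) 0 :=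
  ⟨totalDegree_pderiv_le p i m hp.1, hc_pderiv p i m hp.1⟩

lemma LF.aa {m : ℕ} {p f : MvPolynomial (Fin 3) ℝ} (hp : LF m p f) :
    LF m (aa p) (f - C (m : ℝ) * f) := hp.sub hp.Eul

lemma LF.al {m : ℕ} {p f : MvPolynomial (Fin 3) ℝ} (hp : LF m p f) :
    LF m (al p) (C (m : ℝ) * (C (m : ℝ) * f) - C (m : ℝ) * f) := hp.Eul.Eul.sub hp.Eul

lemma LF.pp {m : ℕ} {p f : MvPolynomial (Fin 3) ℝ} (i : Fin 3) (hp : LF m p f) :
    LF m (pp i p) 0 := by
  have := (hp.Eul.pd i).sub (hp.pd i)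
  rw [sub_zero] at this
  exact this

lemma LF.lap {m : ℕ} {p f : MvPolynomial (Fin 3) ℝ} (hp : LF m p f) :
    LF m (∑ i, pderiv i (pderiv i p)) 0 := by
  have := (((hp.pd 0).pd 0).add ((hp.pd 1).pd 1)).add ((hp.pd 2).pd 2)
  rw [Fin.sum_univ_three]
  simpa using this

lemma LF.ZZ {m n : ℕ} {p q f g : MvPolynomial (Fin 3) ℝ} (hp : LF m p f) (hq : LF n q g) :
    LF (m + n) (ZZ p q) 0 := by
  have e1 := hp.lap.mul hq.lap
  have e2 := hp.lap.mul hq.al
  have e3 : LF (m + n) ((∑ i, pderiv i (pderiv i q)) * Pool.Agent.Lib.MP_7dc3d9_gt.al p) 0 := by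
    have := hq.lap.mul hp.al
    rw [add_comm n m] at this
    simpa using this
  have e4 : LF (m + n) (∑ i, ∑ j, pderiv i (pderiv j p) * pderiv i (pderiv j q)) 0 := by
    have h : ∀ i j : Fin 3, LF (m + n) (pderiv i (pderiv j p) * pderiv i (pderiv j q)) 0 := by
      intro i j
      have := ((hp.pd j).pd i).mul ((hq.pd j).pd i)
      simpa using this
    simp only [Fin.sum_univ_three]
    have := (((h 0 0).add (h 0 1)).add (h 0 2)).add (((h 1 0).add (h 1 1)).add (h 1 2))
    have := this.add (((h 2 0).add (h 2 1)).add (h 2 2))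
    simpa using this
  have e5 : LF (m + n) (2 * ∑ i, Pool.Agent.Lib.MP_7dc3d9_gt.pp i p *
      Pool.Agent.Lib.MP_7dc3d9_gt.pp i q) 0 := by
    have h : ∀ i : Fin 3, LF (m + n) (Pool.Agent.Lib.MP_7dc3d9_gt.pp i p *
      Pool.Agent.Lib.MP_7dc3d9_gt.pp i q) 0 := by
      intro i
      have := (hp.pp i).mul (hq.pp i)
      simpa using this
    simp only [Fin.sum_univ_three]
    have := (((h 0).add (h 1)).add (h 2)).two_mul
    simpa using this
  have := (((e1.sub e2).sub e3).sub e4).add e5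
  simpa [Pool.Agent.Lib.MP_7dc3d9_gt.ZZ] using this

lemma LF.WW {m n : ℕ} {p q f g : MvPolynomial (Fin 3) ℝ} (hp : LF m p f) (hq : LF n q g) :
    LF (m + n) (WW p q)
      (C ((1 - (m : ℝ)) * (1 - (n : ℝ)) * (2 + (m : ℝ) + (n : ℝ))) * (f * g)) := by
  have e1 := (hp.aa.mul hq.aa).two_mul
  have e2 := hp.aa.mul (hq.lap.sub hq.al)
  have e3 : LF (m + n) (Pool.Agent.Lib.MP_7dc3d9_gt.aa q *
      ((∑ i, pderiv i (pderiv i p)) - Pool.Agent.Lib.MP_7dc3d9_gt.al p))
      ((g - C (n : ℝ) * g) * (0 - (C (m : ℝ) * (C (m : ℝ) * f) - C (m : ℝ) * f))) := by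
    have := hq.aa.mul (hp.lap.sub hp.al)
    rwa [add_comm n m] at this
  have := ((e1.add e2).add e3).add (hp.ZZ hq)
  have h1 : Pool.Agent.Lib.MP_7dc3d9_gt.WW p q =
      2 * (Pool.Agent.Lib.MP_7dc3d9_gt.aa p * Pool.Agent.Lib.MP_7dc3d9_gt.aa q) +
        Pool.Agent.Lib.MP_7dc3d9_gt.aa p *
          (∑ i, pderiv i (pderiv i q) - Pool.Agent.Lib.MP_7dc3d9_gt.al q) +
      Pool.Agent.Lib.MP_7dc3d9_gt.aa q *
        (∑ i, pderiv i (pderiv i p) - Pool.Agent.Lib.MP_7dc3d9_gt.al p) +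
      Pool.Agent.Lib.MP_7dc3d9_gt.ZZ p q := by
    simp only [Pool.Agent.Lib.MP_7dc3d9_gt.WW]; ring
  rw [h1]
  convert this using 1
  simp only [map_mul, map_sub, map_add, map_one, map_ofNat]
  ring

end Pool.Agent.Lib.MP_7dc3d9_gt
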