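import Pool.Agent.Lib.MP_7dc3d9_gt.Sph

set_option autoImplicit false
set_option linter.unusedSimpArgs false

open MvPolynomial

namespace Pool.Agent.Lib.MP_7dc3d9_gt

/-- `U` is a linear form on the unit sphere -/
def SphLin (U : MvPolynomial (Fin 3) ℝ) : Prop :=
  ∃ a : Fin 3 → ℝ, ∀ u : Fin 3 → ℝ, u 0 ^ 2 + u 1 ^ 2 + u 2 ^ 2 = 1 →
    eval u U = a 0 * u 0 + a 1 * u 1 + a 2 * u 2

/-- `U` has, up to a linear form, a representative of degree at most `M` on the sphere -/
def RepLe (U : MvPolynomial (Fin 3) ℝ) (M : ℕ) : Prop :=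
  ∃ (T : MvPolynomial (Fin 3) ℝ) (a : Fin 3 → ℝ), T.totalDegree ≤ M ∧
    ∀ u : Fin 3 → ℝ, u 0 ^ 2 + u 1 ^ 2 + u 2 ^ 2 = 1 →
      eval u U = eval u T + (a 0 * u 0 + a 1 * u 1 + a 2 * u 2)

lemma totalDegree_sub_hc (p : MvPolynomial (Fin 3) ℝ) (M : ℕ) (h : p.totalDegree ≤ M + 1) :
    (p - homogeneousComponent (M + 1) p).totalDegree ≤ M := by
  rw [totalDegree_le_iff'] at h ⊢
  intro d hd
  rw [coeff_sub, coeff_homogeneousComponent]
  split_ifs with h1
  · ring
  · rw [h d (by omega)]; ring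

lemma homog_one_eval (p : MvPolynomial (Fin 3) ℝ) (hp : p.IsHomogeneous 1) :
    ∃ a : Fin 3 → ℝ, ∀ u : Fin 3 → ℝ, eval u p = a 0 * u 0 + a 1 * u 1 + a 2 * u 2 := by
  have h := hp.sum_X_mul_pderiv
  have hc : ∀ i, ∃ c : ℝ, pderiv i p = C c := by
    intro i
    have h1 : (pderiv i p).IsHomogeneous 0 := hp.pderiv
    have h2 : (pderiv i p).totalDegree = 0 := by
      have := h1.totalDegree_le
      omega
    exact ⟨_, (totalDegree_eq_zero_iff_eq_C).mp h2⟩
  choose a ha using hc
  refine ⟨a, fun u => ?_⟩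
  rw [one_smul, Fin.sum_univ_three, ha, ha, ha] at h
  rw [← h]
  simp
  ring

lemma exists_rep (U : MvPolynomial (Fin 3) ℝ) (hU : ¬ SphLin U) :
    ∃ (M : ℕ) (T : MvPolynomial (Fin 3) ℝ) (a : Fin 3 → ℝ), M ≠ 1 ∧ T.totalDegree ≤ M ∧
      ¬ rho ∣ homogeneousComponent M T ∧
      ∀ u : Fin 3 → ℝ, u 0 ^ 2 + u 1 ^ 2 + u 2 ^ 2 = 1 →
        eval u U = eval u T + (a 0 * u 0 + a 1 * u 1 + a 2 * u 2) := by
  classical
  have hex : ∃ M, RepLe U M := ⟨U.totalDegree, U, 0, le_rfl, fun u _ => by simp⟩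
  obtain ⟨T, a, hT, hTa⟩ := Nat.find_spec hex
  set M := Nat.find hex with hM
  have hmin : ∀ k, k < M → ¬ RepLe U k := fun k hk => Nat.find_min hex hk
  refine ⟨M, T, a, ?_, hT, ?_, hTa⟩
  · intro h1
    apply hmin 0 (by omega)
    rw [h1] at hT
    obtain ⟨b, hb⟩ := homog_one_eval _ (homogeneousComponent_isHomogeneous 1 T)
    refine ⟨T - homogeneousComponent 1 T, a + b, totalDegree_sub_hc T 0 hT, fun u hu => ?_⟩
    rw [hTa u hu, map_sub, hb u]
    simp only [Pi.add_apply]
    ring
  · rintro ⟨S, hS⟩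
    rcases Nat.eq_zero_or_pos M with h0 | hpos
    · -- M = 0
      rw [h0] at hT hS
      have h1 : T = homogeneousComponent 0 T := by
        conv_lhs => rw [← sum_hc T 0 hT]
        simp
      by_cases hS0 : S = 0
      · apply hU
        refine ⟨a, fun u hu => ?_⟩
        rw [hTa u hu, h1, hS, hS0]
        simp
      · have h2 : (homogeneousComponent 0 T).totalDegree = 2 + S.totalDegree := by
          have hr2 : rho.totalDegree = 2 := by
            have hh : rho.IsHomogeneous 2 := by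
              have := homogeneousComponent_isHomogeneous 2 (rho - C 1)
              rwa [LF_rho.2] at this
            exact hh.totalDegree rho_ne_zero
          rw [hS, totalDegree_mul_of_isDomain rho_ne_zero hS0, hr2]
        have h3 := (homogeneousComponent_isHomogeneous 0 T).totalDegree_le
        omega
    · obtain ⟨k, hk⟩ : ∃ k, M = k + 1 := ⟨M - 1, by omega⟩
      apply hmin k (by omega)
      rw [hk] at hT hS
      refine ⟨T - homogeneousComponent (k + 1) T + S, a, ?_, fun u hu => ?_⟩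
      · refine (totalDegree_add _ _).trans (max_le (totalDegree_sub_hc T k hT) ?_)
        by_cases hS0 : S = 0
        · rw [hS0]; simp
        · have h2 : (homogeneousComponent (k + 1) T).totalDegree = 2 + S.totalDegree := by
            have hr2 : rho.totalDegree = 2 := by
              have hh : rho.IsHomogeneous 2 := by
                have := homogeneousComponent_isHomogeneous 2 (rho - C 1)
                rwa [LF_rho.2] at this
              exact hh.totalDegree rho_ne_zero
            rw [hS, totalDegree_mul_of_isDomain rho_ne_zero hS0, hr2]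
          have h3 := (homogeneousComponent_isHomogeneous (k + 1) T).totalDegree_le
          omega
      · rw [hTa u hu, map_add, map_sub, hS, map_mul]
        have h4 : eval u rho = 1 := by
          simp only [rho, map_add, map_pow, eval_X]; exact hu
        rw [h4]; ring

/-- Liouville-type theorem for the polarised curvature function. -/
theorem alg_main (U V : MvPolynomial (Fin 3) ℝ) (m n : ℕ) (hm1 : m ≠ 1) (hn1 : n ≠ 1)
    (hU : U.totalDegree ≤ m) (hV : V.totalDegree ≤ n)
    (hU2 : ¬ rho ∣ homogeneousComponent m U) (hV2 : ¬ rho ∣ homogeneousComponent n V)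
    (h : ∀ u : Fin 3 → ℝ, u 0 ^ 2 + u 1 ^ 2 + u 2 ^ 2 = 1 → eval u (BB U V) = 0) : False := by
  have hW := LF.WW (⟨hU, rfl⟩ : LF m U _) (⟨hV, rfl⟩ : LF n V _)
  have hdvd := rho_dvd_lead _ _ _ hW (fun u hu => by rw [← eval_BB U V u hu]; exact h u hu)
  rcases prime_rho.dvd_or_dvd hdvd with h1 | h1
  · -- rho divides a nonzero constant
    have hne : (1 - (m : ℝ)) * (1 - (n : ℝ)) * (2 + (m : ℝ) + (n : ℝ)) ≠ 0 := by
      have e1 : (1 - (m : ℝ)) ≠ 0 := by
        intro h; apply hm1; have : (m : ℝ) = 1 := by linarith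
        exact_mod_cast this
      have e2 : (1 - (n : ℝ)) ≠ 0 := by
        intro h; apply hn1; have : (n : ℝ) = 1 := by linarith
        exact_mod_cast this
      have e3 : (2 + (m : ℝ) + (n : ℝ)) ≠ 0 := by positivity
      exact mul_ne_zero (mul_ne_zero e1 e2) e3
    have hunit : IsUnit (C ((1 - (m : ℝ)) * (1 - (n : ℝ)) * (2 + (m : ℝ) + (n : ℝ)))
        : MvPolynomial (Fin 3) ℝ) := (isUnit_iff_ne_zero.mpr hne).map C
    exact prime_rho.not_isUnit (isUnit_of_dvd_unit h1 hunit)
  · rcases prime_rho.dvd_or_dvd h1 with h2 | h2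
    · exact hU2 h2
    · exact hV2 h2

end Pool.Agent.Lib.MP_7dc3d9_gt
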