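import Mathlib
import Pool.Agent.Lib.MP_7dc3d9_gt.ThA.Defs

set_option autoImplicit false

/-! Hedgehogs of revolution: the curvature function determines the square of the radius. -/

namespace Pool.Agent.HH.Rev

open Set Real

/-- rotation about the third axis by the angle `θ` -/
noncomputable def rt (θ : ℝ) (x : E3) : E3 :=
  (cos θ * x 0 - sin θ * x 1) • ev 0 + (sin θ * x 0 + cos θ * x 1) • ev 1 + x 2 • ev 2

/-- the infinitesimal rotation -/
noncomputable def J : E3 →L[ℝ] E3 :=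
  (-(EuclideanSpace.proj 1 : E3 →L[ℝ] ℝ)).smulRight (ev 0) +
    (EuclideanSpace.proj 0 : E3 →L[ℝ] ℝ).smulRight (ev 1)

lemma J_apply (x : E3) : J x = (-x 1) • ev 0 + x 0 • ev 1 := by
  simp [J]

lemma ev_apply (i j : Fin 3) : (ev i) j = if j = i then 1 else 0 := by
  simp [ev]

lemma E3_eq (x : E3) : x = x 0 • ev 0 + x 1 • ev 1 + x 2 • ev 2 := by
  ext i; fin_cases i <;> simp [ev_apply]

/-- the meridian -/
noncomputable def me (φ : ℝ) : E3 := cos φ • ev 0 + sin φ • ev 2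

lemma norm_sq3 (x : E3) : ‖x‖ ^ 2 = x 0 ^ 2 + x 1 ^ 2 + x 2 ^ 2 := by
  rw [EuclideanSpace.norm_sq_eq]; simp [Fin.sum_univ_three]

lemma norm_me (φ : ℝ) : ‖me φ‖ = 1 := by
  have h := norm_sq3 (me φ)
  have h2 : ‖me φ‖ ^ 2 = 1 := by
    rw [h]; simp [me, ev_apply]
  have h3 : (0:ℝ) ≤ ‖me φ‖ := norm_nonneg _
  nlinarith

lemma me_ne (φ : ℝ) : me φ ≠ 0 := by
  intro h
  have := norm_me φ
  rw [h, norm_zero] at this
  exact zero_ne_one this

/-- rotational symmetry about the third axis -/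
def Axi (F : E3 → ℝ) : Prop := ∀ x y : E3, x 2 = y 2 → ‖x‖ = ‖y‖ → F x = F y

lemma Axi.rot {F : E3 → ℝ} (h : Axi F) (θ : ℝ) (x : E3) : F (rt θ x) = F x := by
  apply h
  · simp [rt, ev_apply]
  · have h1 : ‖rt θ x‖ ^ 2 = ‖x‖ ^ 2 := by
      rw [norm_sq3, norm_sq3]
      simp only [rt, ev_apply, PiLp.add_apply, PiLp.smul_apply, smul_eq_mul]
      simp
      nlinarith [sin_sq_add_cos_sq θ]
    exact (sq_eq_sq₀ (norm_nonneg _) (norm_nonneg _)).1 h1

section
variable {F : E3 → ℝ}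

lemma cda (hF : IsSupp F) {x : E3} (hx : x ≠ 0) : ContDiffAt ℝ 2 F x :=
  (hF.smooth x hx).contDiffAt (isOpen_compl_singleton.mem_nhds hx)

lemma dif (hF : IsSupp F) {x : E3} (hx : x ≠ 0) : DifferentiableAt ℝ F x :=
  (cda hF hx).differentiableAt (by norm_num)

lemma dif2 (hF : IsSupp F) {x : E3} (hx : x ≠ 0) : DifferentiableAt ℝ (fderiv ℝ F) x :=
  ((cda hF hx).fderiv_right (m := 1) (by norm_num)).differentiableAt (by norm_num)

/-- (a) -/
lemma rotA (hF : IsSupp F) (hA : Axi F) {x : E3} (hx : x ≠ 0) : fderiv ℝ F x (J x) = 0 := by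
  have h0 : rt 0 x = x := by
    conv_rhs => rw [E3_eq x]
    simp [rt]
  have h1 : HasDerivAt (fun θ : ℝ => rt θ x) (J x) 0 := by
    have : HasDerivAt (fun θ : ℝ => rt θ x)
        ((-sin 0 * x 0 - cos 0 * x 1) • ev 0 + (cos 0 * x 0 + (-sin 0) * x 1) • ev 1) 0 := by
      have a := (((hasDerivAt_cos (0:ℝ)).mul_const (x 0)).sub
        ((hasDerivAt_sin (0:ℝ)).mul_const (x 1))).smul_const (ev 0)
      have b := (((hasDerivAt_sin (0:ℝ)).mul_const (x 0)).add
        ((hasDerivAt_cos (0:ℝ)).mul_const (x 1))).smul_const (ev 1)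
      exact (a.add b).add_const (x 2 • ev 2)
    rw [J_apply]
    convert this using 2 <;> simp
  have h2 : HasDerivAt (fun θ : ℝ => F (rt θ x)) (fderiv ℝ F x (J x)) 0 := by
    have h3 : HasFDerivAt F (fderiv ℝ F x) (rt 0 x) := by
      rw [h0]; exact (dif hF hx).hasFDerivAt
    exact h3.comp_hasDerivAt (0:ℝ) h1
  have h4 : (fun θ : ℝ => F (rt θ x)) = fun _ => F x := funext fun θ => hA.rot θ x
  rw [h4] at h2
  exact h2.unique (hasDerivAt_const (0:ℝ) (F x))

/-- (b) -/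
lemma rotB (hF : IsSupp F) (hA : Axi F) {x : E3} (hx : x ≠ 0) (w : E3) :
    fderiv ℝ (fderiv ℝ F) x w (J x) + fderiv ℝ F x (J w) = 0 := by
  have h1 : HasFDerivAt (fun y : E3 => fderiv ℝ F y (J y))
      (((fderiv ℝ F x).comp J) + (fderiv ℝ (fderiv ℝ F) x).flip (J x)) x :=
    (dif2 hF hx).hasFDerivAt.clm_apply J.hasFDerivAt
  have h2 : (fun y : E3 => fderiv ℝ F y (J y)) =ᶠ[nhds x] fun _ => 0 := by
    filter_upwards [isOpen_compl_singleton.mem_nhds hx] with y hy
    exact rotA hF hA hy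
  have h3 := (h2.hasFDerivAt_iff.1 h1).unique (hasFDerivAt_const (0:ℝ) x)
  have h4 := congrArg (fun L : E3 →L[ℝ] ℝ => L w) h3
  simp at h4
  linarith

/-- (c) -/
lemma homA (hF : IsSupp F) {x : E3} (hx : x ≠ 0) {c : ℝ} (hc : 0 < c) :
    fderiv ℝ F (c • x) = fderiv ℝ F x := by
  have hcx : c • x ≠ 0 := smul_ne_zero hc.ne' hx
  have h1 : HasFDerivAt (fun y : E3 => F (c • y))
      ((fderiv ℝ F (c • x)).comp (c • ContinuousLinearMap.id ℝ E3)) x :=
    (dif hF hcx).hasFDerivAt.comp x ((hasFDerivAt_id x).const_smul c)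
  have h2 : HasFDerivAt (fun y : E3 => F (c • y)) (c • fderiv ℝ F x) x := by
    have : (fun y : E3 => F (c • y)) = fun y => c • F y := by
      funext y; rw [hF.hom y c hc, smul_eq_mul]
    rw [this]
    exact (dif hF hx).hasFDerivAt.const_smul c
  have h3 := h1.unique h2
  ext v
  have h4 := congrArg (fun L : E3 →L[ℝ] ℝ => L v) h3
  simp at h4
  rcases h4 with h | h
  · exact h
  · exact absurd h hc.ne'

lemma homB (hF : IsSupp F) {x : E3} (hx : x ≠ 0) (v : E3) :
    fderiv ℝ (fderiv ℝ F) x x v = 0 := by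
  have h1 : HasDerivAt (fun s : ℝ => s • x) x 1 := by
    simpa using (hasDerivAt_id (1:ℝ)).smul_const x
  have h2 : HasDerivAt (fun s : ℝ => fderiv ℝ F (s • x)) (fderiv ℝ (fderiv ℝ F) x x) 1 := by
    have h3 : HasFDerivAt (fderiv ℝ F) (fderiv ℝ (fderiv ℝ F) x) ((1:ℝ) • x) := by
      rw [one_smul]; exact (dif2 hF hx).hasFDerivAt
    exact h3.comp_hasDerivAt (1:ℝ) h1
  have h4 : (fun s : ℝ => fderiv ℝ F (s • x)) =ᶠ[nhds 1] fun _ => fderiv ℝ F x := by
    filter_upwards [lt_mem_nhds (show (0:ℝ) < 1 by norm_num)] with s hs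
    exact homA hF hx hs
  have h5 := (h4.hasDerivAt_iff.1 h2).unique (hasDerivAt_const (1:ℝ) _)
  rw [h5]; simp

lemma symm (hF : IsSupp F) {x : E3} (hx : x ≠ 0) (v w : E3) :
    fderiv ℝ (fderiv ℝ F) x v w = fderiv ℝ (fderiv ℝ F) x w v :=
  ((cda hF hx).isSymmSndFDerivAt (by simp)).eq v w

/-- Euler -/
lemma euler (hF : IsSupp F) {x : E3} (hx : x ≠ 0) : fderiv ℝ F x x = F x := by
  have h1 : HasDerivAt (fun s : ℝ => s • x) x 1 := by
    simpa using (hasDerivAt_id (1:ℝ)).smul_const x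
  have h2 : HasDerivAt (fun s : ℝ => F (s • x)) (fderiv ℝ F x x) 1 := by
    have h3 : HasFDerivAt F (fderiv ℝ F x) ((1:ℝ) • x) := by
      rw [one_smul]; exact (dif hF hx).hasFDerivAt
    exact h3.comp_hasDerivAt (1:ℝ) h1
  have h4 : (fun s : ℝ => F (s • x)) =ᶠ[nhds 1] fun s => s * F x := by
    filter_upwards [lt_mem_nhds (show (0:ℝ) < 1 by norm_num)] with s hs
    exact hF.hom x s hs
  have h5 := (h4.hasDerivAt_iff.1 h2).unique ((hasDerivAt_id (1:ℝ)).mul_const (F x))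
  simpa using h5

lemma J0 : J (ev 0) = ev 1 := by rw [J_apply]; simp [ev_apply]
lemma J1 : J (ev 1) = -ev 0 := by rw [J_apply]; simp [ev_apply]
lemma J2 : J (ev 2) = 0 := by rw [J_apply]; simp [ev_apply]
lemma Jme (φ : ℝ) : J (me φ) = cos φ • ev 1 := by rw [J_apply]; simp [me, ev_apply]

/-- the radius function `X(φ)` of the hedgehog of revolution -/
noncomputable def X (F : E3 → ℝ) (φ : ℝ) : ℝ := fderiv ℝ F (me φ) (ev 0)
/-- the height function -/
noncomputable def Z (F : E3 → ℝ) (φ : ℝ) : ℝ := fderiv ℝ F (me φ) (ev 2)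
/-- `F_00 + F_22` -/
noncomputable def kap (F : E3 → ℝ) (φ : ℝ) : ℝ :=
  hessEntry F (me φ) 0 0 + hessEntry F (me φ) 2 2

lemma hasDeriv_me (φ : ℝ) : HasDerivAt me ((-sin φ) • ev 0 + cos φ • ev 2) φ :=
  ((hasDerivAt_cos φ).smul_const (ev 0)).add ((hasDerivAt_sin φ).smul_const (ev 2))

lemma hess_eq (F : E3 → ℝ) (u : E3) (i j : Fin 3) :
    hessEntry F u i j = fderiv ℝ (fderiv ℝ F) u (ev i) (ev j) := rfl

lemma hasDeriv_comp (hF : IsSupp F) (φ : ℝ) (j : Fin 3) :
    HasDerivAt (fun φ => fderiv ℝ F (me φ) (ev j))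
      (-sin φ * hessEntry F (me φ) 0 j + cos φ * hessEntry F (me φ) 2 j) φ := by
  have h1 : HasDerivAt (fun φ => fderiv ℝ F (me φ))
      (fderiv ℝ (fderiv ℝ F) (me φ) ((-sin φ) • ev 0 + cos φ • ev 2)) φ :=
    ((dif2 hF (me_ne φ)).hasFDerivAt).comp_hasDerivAt φ (hasDeriv_me φ)
  have h2 := h1.clm_apply (hasDerivAt_const φ (ev j))
  refine h2.congr_deriv ?_
  simp [hess_eq]

/-- the relations `c F_0j + s F_2j = 0` -/
lemma rel (hF : IsSupp F) (φ : ℝ) (j : Fin 3) :
    cos φ * hessEntry F (me φ) 0 j + sin φ * hessEntry F (me φ) 2 j = 0 := by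
  have h := homB hF (me_ne φ) (ev j)
  have e : fderiv ℝ (fderiv ℝ F) (me φ) (me φ) (ev j) =
      cos φ * hessEntry F (me φ) 0 j + sin φ * hessEntry F (me φ) 2 j := by
    conv_lhs => rw [show fderiv ℝ (fderiv ℝ F) (me φ) (me φ) =
      fderiv ℝ (fderiv ℝ F) (me φ) (cos φ • ev 0 + sin φ • ev 2) from rfl]
    simp [hess_eq]
  rw [← e]; exact h

lemma symmH (hF : IsSupp F) (φ : ℝ) (i j : Fin 3) :
    hessEntry F (me φ) i j = hessEntry F (me φ) j i := symm hF (me_ne φ) _ _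

lemma derivX (hF : IsSupp F) (φ : ℝ) : HasDerivAt (X F) (-sin φ * kap F φ) φ := by
  refine (hasDeriv_comp hF φ 0).congr_deriv ?_
  have r0 := rel hF φ 0
  have r2 := rel hF φ 2
  have s := symmH hF φ 0 2
  rw [s] at r2
  unfold kap
  have p := sin_sq_add_cos_sq φ
  linear_combination r2

lemma derivZ (hF : IsSupp F) (φ : ℝ) : HasDerivAt (Z F) (cos φ * kap F φ) φ := by
  refine (hasDeriv_comp hF φ 2).congr_deriv ?_
  have r0 := rel hF φ 0
  have s := symmH hF φ 0 2
  rw [s]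
  unfold kap
  linear_combination -r0

lemma pole (hF : IsSupp F) (hA : Axi F) (φ : ℝ) (hc : cos φ = 0) : X F φ = 0 := by
  have h := rotB hF hA (me_ne φ) (ev 1)
  rw [Jme, J1, hc] at h
  simp at h
  unfold X; linarith

lemma curv (hF : IsSupp F) (hA : Axi F) (φ : ℝ) (hc : cos φ ≠ 0) :
    curvatureFunction F (me φ) * cos φ = kap F φ * X F φ := by
  have b0 := rotB hF hA (me_ne φ) (ev 0)
  have b1 := rotB hF hA (me_ne φ) (ev 1)
  have b2 := rotB hF hA (me_ne φ) (ev 2)
  have a := rotA hF hA (me_ne φ)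
  rw [Jme] at a b0 b1 b2
  rw [J0] at b0
  rw [J1] at b1
  rw [J2] at b2
  simp only [map_smul, smul_eq_mul, map_neg, map_zero, add_zero] at a b0 b1 b2
  have f1 : fderiv ℝ F (me φ) (ev 1) = 0 := by
    rcases mul_eq_zero.1 a with h | h
    · exact absurd h hc
    · exact h
  rw [f1, add_zero] at b0
  have h01 : hessEntry F (me φ) 0 1 = 0 := by
    rcases mul_eq_zero.1 b0 with h | h
    · exact absurd h hc
    · exact h
  have h21 : hessEntry F (me φ) 2 1 = 0 := by
    rcases mul_eq_zero.1 b2 with h | h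
    · exact absurd h hc
    · exact h
  have h11 : cos φ * hessEntry F (me φ) 1 1 = X F φ := by
    unfold X
    rw [hess_eq]
    linarith
  have r0 := rel hF φ 0
  have r2 := rel hF φ 2
  have s02 := symmH hF φ 0 2
  have s01 := symmH hF φ 0 1
  have s12 := symmH hF φ 1 2
  unfold curvatureFunction kap
  rw [← s01, h01, s12, h21, s02, ← h11]
  rw [s02] at r2
  have key : hessEntry F (me φ) 0 0 * hessEntry F (me φ) 2 2
      - hessEntry F (me φ) 2 0 * hessEntry F (me φ) 2 0 = 0 := by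
    have : cos φ * (hessEntry F (me φ) 0 0 * hessEntry F (me φ) 2 2
      - hessEntry F (me φ) 2 0 * hessEntry F (me φ) 2 0) = 0 := by
      linear_combination hessEntry F (me φ) 2 2 * r0 - hessEntry F (me φ) 2 0 * r2
    rcases mul_eq_zero.1 this with h | h
    · exact absurd h hc
    · exact h
  linear_combination cos φ * key

lemma derivX2 (hF : IsSupp F) (hA : Axi F) (φ : ℝ) :
    HasDerivAt (fun φ => X F φ ^ 2) (-2 * sin φ * cos φ * curvatureFunction F (me φ)) φ := by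
  have h := (derivX hF φ).fun_pow 2
  refine h.congr_deriv ?_
  by_cases hc : cos φ = 0
  · rw [pole hF hA φ hc, hc]; simp
  · have k := curv hF hA φ hc
    norm_num
    linear_combination (-2 : ℝ) * sin φ * k

end

/-- two hedgehogs of revolution with the same curvature function have the same squared radius -/
theorem sq_eq {F G : E3 → ℝ} (hF : IsSupp F) (hG : IsSupp G) (aF : Axi F) (aG : Axi G)
    (hR : ∀ u ∈ Metric.sphere (0 : E3) 1, curvatureFunction F u = curvatureFunction G u)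
    {φ : ℝ} (hφ : φ ∈ Icc (-(π/2)) (π/2)) : X F φ ^ 2 = X G φ ^ 2 := by
  have cX : ∀ {H : E3 → ℝ}, IsSupp H → Continuous (X H) := fun hH =>
    continuous_iff_continuousAt.2 fun φ => (derivX hH φ).continuousAt
  have hcont : ContinuousOn (fun φ => X F φ ^ 2 - X G φ ^ 2) (Icc (-(π/2)) (π/2)) :=
    (((cX hF).pow 2).sub ((cX hG).pow 2)).continuousOn
  have hder : ∀ φ, HasDerivAt (fun φ => X F φ ^ 2 - X G φ ^ 2) 0 φ := by
    intro φ
    refine ((derivX2 hF aF φ).fun_sub (derivX2 hG aG φ)).congr_deriv ?_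
    rw [hR (me φ) (by simp [norm_me])]
    ring
  have hconst : ∀ φ ∈ Icc (-(π/2)) (π/2), X F φ ^ 2 - X G φ ^ 2 =
      X F (-(π/2)) ^ 2 - X G (-(π/2)) ^ 2 := by
    apply constant_of_has_deriv_right_zero hcont
    intro φ hφ
    exact (hder φ).hasDerivWithinAt
  have h0 : X F (-(π/2)) = 0 := pole hF aF _ (by simp)
  have h1 : X G (-(π/2)) = 0 := pole hG aG _ (by simp)
  have := hconst φ hφ
  rw [h0, h1] at this
  simp at this
  linarith

/-- if the radius function vanishes identically, the function is linear -/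
theorem lin_of_X {D : E3 → ℝ} (hD : IsSupp D) (aD : Axi D)
    (hX : ∀ φ ∈ Icc (-(π/2)) (π/2), X D φ = 0) : ∃ b : ℝ, ∀ x : E3, D x = b * x 2 := by
  have cZ : Continuous (Z D) := continuous_iff_continuousAt.2 fun φ => (derivZ hD φ).continuousAt
  have hk : ∀ φ ∈ Ioo (-(π/2)) (π/2), φ ≠ 0 → kap D φ = 0 := by
    intro φ hφ h0
    have h1 : HasDerivAt (X D) 0 φ := by
      have : X D =ᶠ[nhds φ] fun _ => 0 := by
        filter_upwards [Ioo_mem_nhds hφ.1 hφ.2] with y hy
        exact hX y (Ioo_subset_Icc_self hy)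
      exact this.hasDerivAt_iff.2 (hasDerivAt_const φ 0)
    have h2 := (derivX hD φ).unique h1
    have hs : sin φ ≠ 0 := by
      intro hs
      rw [sin_eq_zero_iff_of_lt_of_lt] at hs
      · exact h0 hs
      · have := hφ.1; linarith [pi_pos]
      · have := hφ.2; linarith [pi_pos]
    rcases mul_eq_zero.1 h2 with h | h
    · exact absurd (neg_eq_zero.1 h) hs
    · exact h
  have hZ0 : ∀ φ ∈ Icc (-(π/2)) (π/2), Z D φ = Z D 0 := by
    have hmain : ∀ a b : ℝ, -(π/2) ≤ a → b ≤ π/2 → (0 ≤ a ∨ b ≤ 0) →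
        ∀ φ ∈ Icc a b, Z D φ = Z D a := by
      intro a b ha hb hab
      rcases le_or_gt b a with hle | hlt
      · intro φ hφ
        have : φ = a := le_antisymm (hφ.2.trans hle) hφ.1
        rw [this]
      have hd : ∀ φ ∈ Ioo a b, HasDerivAt (Z D) 0 φ := by
        intro φ hφ
        have hk' := hk φ ⟨lt_of_le_of_lt ha hφ.1, lt_of_lt_of_le hφ.2 hb⟩ (by
          rcases hab with h | h
          · exact (lt_of_le_of_lt h hφ.1).ne'
          · exact (lt_of_lt_of_le hφ.2 h).ne)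
        have := derivZ hD φ
        rw [hk', mul_zero] at this
        exact this
      intro φ hφ
      have h1 : ∀ x ∈ Icc a b, ∀ y ∈ Icc a b, x < y → Z D y = Z D x := by
        intro x hx y hy hxy
        obtain ⟨c, hc, hc2⟩ := exists_hasDerivAt_eq_slope (Z D) (fun _ => 0) hxy
          cZ.continuousOn (fun z hz => hd z ⟨lt_of_le_of_lt hx.1 hz.1, lt_of_lt_of_le hz.2 hy.2⟩)
        have hyx : y - x ≠ 0 := by linarith
        have := hc2.symm
        rw [div_eq_zero_iff] at this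
        rcases this with h | h
        · linarith
        · exact absurd h hyx
      rcases eq_or_lt_of_le hφ.1 with h | h
      · rw [← h]
      · exact h1 a ⟨le_refl _, hlt.le⟩ φ hφ h
    intro φ hφ
    rcases le_total 0 φ with h | h
    · exact hmain 0 (π/2) (by linarith [pi_pos]) (le_refl _) (Or.inl (le_refl _)) φ ⟨h, hφ.2⟩
    · have h1 := hmain (-(π/2)) 0 (le_refl _) (by linarith [pi_pos]) (Or.inr (le_refl _)) φ
        ⟨hφ.1, h⟩
      have h2 := hmain (-(π/2)) 0 (le_refl _) (by linarith [pi_pos]) (Or.inr (le_refl _)) 0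
        ⟨by linarith [pi_pos], le_refl _⟩
      rw [h1, h2]
  have hme : ∀ φ ∈ Icc (-(π/2)) (π/2), D (me φ) = Z D 0 * sin φ := by
    intro φ hφ
    have e := euler hD (me_ne φ)
    have e2 : fderiv ℝ D (me φ) (me φ) = cos φ * X D φ + sin φ * Z D φ := by
      conv_lhs => rw [show fderiv ℝ D (me φ) (me φ) =
        fderiv ℝ D (me φ) (cos φ • ev 0 + sin φ • ev 2) from rfl]
      simp [X, Z]
    rw [← e, e2, hX φ hφ, hZ0 φ hφ]; ring
  refine ⟨Z D 0, fun x => ?_⟩
  by_cases hx : x = 0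
  · have h2 := hD.hom 0 2 (by norm_num)
    rw [smul_zero] at h2
    rw [hx]
    simp
    linarith
  · have hn : 0 < ‖x‖ := norm_pos_iff.2 hx
    have hns := norm_sq3 x
    set q : ℝ := x 2 / ‖x‖ with hq
    have hq1 : |q| ≤ 1 := by
      rw [hq, abs_div, abs_norm, div_le_one hn]
      exact abs_le_of_sq_le_sq (by rw [hns]; nlinarith [sq_nonneg (x 0), sq_nonneg (x 1)]) hn.le
    have hq2 := abs_le.1 hq1
    have h1 : D x = ‖x‖ * D (me (arcsin q)) := by
      rw [← hD.hom _ _ hn]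
      apply aD
      · have e1 : (‖x‖ • me (arcsin q)) 2 = ‖x‖ * sin (arcsin q) := by
          simp [me, ev_apply]
        rw [e1, sin_arcsin hq2.1 hq2.2, hq]
        field_simp
      · rw [norm_smul, norm_me, mul_one, norm_norm]
    rw [h1, hme _ (arcsin_mem_Icc q), sin_arcsin hq2.1 hq2.2, hq]
    field_simp

lemma supp_sub {F G : E3 → ℝ} (hF : IsSupp F) (hG : IsSupp G) : IsSupp (fun x => F x - G x) :=
  ⟨fun x c hc => by simp only [hF.hom x c hc, hG.hom x c hc]; ring, hF.smooth.sub hG.smooth⟩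

lemma X_sub {F G : E3 → ℝ} (hF : IsSupp F) (hG : IsSupp G) (φ : ℝ) :
    X (fun x => F x - G x) φ = X F φ - X G φ := by
  unfold X
  rw [fderiv_fun_sub (dif hF (me_ne φ)) (dif hG (me_ne φ))]
  rfl

lemma grad_add_lin (g : E3 → ℝ) (a u : E3) (hg : DifferentiableAt ℝ g u) :
    gradient (fun x => g x + inner ℝ a x) u = gradient g u + a := by
  have h1 : HasFDerivAt (fun x => g x + inner ℝ a x) (fderiv ℝ g u + innerSL ℝ a) u :=
    hg.hasFDerivAt.fun_add (innerSL ℝ a).hasFDerivAt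
  simp only [gradient]
  rw [h1.fderiv, map_add]
  congr 1
  exact (InnerProductSpace.toDual ℝ E3).symm_apply_apply a

/-- curvature preserving families of hedgehogs of revolution are trivial -/
theorem fam (H : ℝ → E3 → ℝ) (hH : ∀ t ∈ Icc (0:ℝ) 1, IsSupp (H t))
    (aH : ∀ t ∈ Icc (0:ℝ) 1, Axi (H t))
    (hc : ∀ x : E3, x ≠ 0 → ContinuousOn (fun t => fderiv ℝ (H t) x) (Icc 0 1))
    (hR : ∀ t ∈ Icc (0 : ℝ) 1, ∀ u ∈ Metric.sphere (0 : E3) 1,
      curvatureFunction (H t) u = curvatureFunction (H 0) u) :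
    ∀ t ∈ Icc (0 : ℝ) 1, (∃ b : ℝ, ∀ x, H t x = H 0 x + b * x 2) ∧
      ∃ Φ : E3 ≃ᵢ E3, Φ '' hedgehog (H 0) = hedgehog (H t) := by
  intro t ht
  have h01 : (0:ℝ) ∈ Icc (0:ℝ) 1 := ⟨le_refl _, zero_le_one⟩
  have hX : ∀ φ ∈ Icc (-(π/2)) (π/2), X (H t) φ = X (H 0) φ := by
    intro φ hφ
    have hsq : ∀ s ∈ Icc (0:ℝ) 1, X (H s) φ ^ 2 = X (H 0) φ ^ 2 := fun s hs =>
      sq_eq (hH s hs) (hH 0 h01) (aH s hs) (aH 0 h01) (hR s hs) hφ
    by_cases h0 : X (H 0) φ = 0
    · have := hsq t ht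
      rw [h0] at this
      rw [h0]
      exact pow_eq_zero_iff (two_ne_zero) |>.1 (by simpa using this)
    · have hcont : ContinuousOn (fun s => X (H s) φ) (Icc (0:ℝ) 1) :=
        (hc (me φ) (me_ne φ)).clm_apply continuousOn_const
      rcases isPreconnected_Icc.eq_or_eq_neg_of_sq_eq hcont
        (continuousOn_const (c := X (H 0) φ)) (fun s hs => hsq s hs) (fun _ => h0) with h | h
      · exact h ht
      · have := h h01
        simp at this
        exfalso; apply h0; linarith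
  have hD : IsSupp (fun x => H t x - H 0 x) := supp_sub (hH t ht) (hH 0 h01)
  have aD : Axi (fun x => H t x - H 0 x) := fun x y h1 h2 => by
    simp only [aH t ht x y h1 h2, aH 0 h01 x y h1 h2]
  obtain ⟨b, hb⟩ := lin_of_X hD aD (fun φ hφ => by
    rw [X_sub (hH t ht) (hH 0 h01), hX φ hφ, sub_self])
  have hlin : ∀ x, H t x = H 0 x + b * x 2 := fun x => by
    have := hb x; simp only at this; linarith
  refine ⟨⟨b, hlin⟩, IsometryEquiv.addRight (b • ev 2), ?_⟩
  have hin : ∀ x : E3, inner ℝ (b • ev 2) x = b * x 2 := fun x => by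
    rw [inner_smul_left]; simp [ev, EuclideanSpace.inner_single_left]
  have hgrad : ∀ u ∈ Metric.sphere (0 : E3) 1, gradient (H t) u = gradient (H 0) u + b • ev 2 := by
    intro u hu
    have hu0 : u ≠ 0 := by
      intro h; rw [h] at hu; simp at hu
    have e : H t = fun x => H 0 x + inner ℝ (b • ev 2) x := funext fun x => by rw [hin, hlin x]
    rw [e]
    exact grad_add_lin (H 0) _ u (dif (hH 0 h01) hu0)
  simp only [hedgehog]
  rw [Set.image_image]
  exact Set.image_congr fun u hu => by rw [hgrad u hu]; rfl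

end Pool.Agent.HH.Rev
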