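import Mathlib
import Pool.Agent.Lib.MP_7dc3d9_gt.Revol

set_option autoImplicit false

/-! Hedgehogs of revolution: change of the axis. -/

namespace Pool.Agent.HH.Rev

open Set Real

/-- rotational symmetry about the axis `a` -/
def AxiA (a : E3) (F : E3 → ℝ) : Prop :=
  ∀ x y : E3, inner ℝ a x = inner ℝ a y → ‖x‖ = ‖y‖ → F x = F y

section
variable {F : E3 → ℝ} (U : E3 ≃ₗᵢ[ℝ] E3)

lemma U_ne {x : E3} (hx : x ≠ 0) : U x ≠ 0 := by
  intro h; exact hx (by simpa using h)

lemma supp_comp (hF : IsSupp F) : IsSupp (fun x => F (U x)) :=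
  ⟨fun x c hc => by simp only [map_smul, hF.hom _ c hc],
    hF.smooth.comp U.contDiff.contDiffOn (fun x hx => U_ne U hx)⟩

lemma fd1 (x : E3) : fderiv ℝ (fun x => F (U x)) x =
    (fderiv ℝ F (U x)).comp (U.toContinuousLinearEquiv : E3 →L[ℝ] E3) :=
  U.toContinuousLinearEquiv.comp_right_fderiv (f := F)

lemma fd2 (hF : IsSupp F) {x : E3} (hx : x ≠ 0) (v w : E3) :
    fderiv ℝ (fderiv ℝ (fun x => F (U x))) x v w =
      fderiv ℝ (fderiv ℝ F) (U x) (U v) (U w) := by
  have e : fderiv ℝ (fun x => F (U x)) = fun x =>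
    (fderiv ℝ F (U x)).comp (U.toContinuousLinearEquiv : E3 →L[ℝ] E3) := funext fun x => fd1 U x
  rw [e]
  have h1 : HasFDerivAt (fun x => fderiv ℝ F (U x))
      ((fderiv ℝ (fderiv ℝ F) (U x)).comp (U.toContinuousLinearEquiv : E3 →L[ℝ] E3)) x :=
    (dif2 hF (U_ne U hx)).hasFDerivAt.comp x U.toContinuousLinearEquiv.hasFDerivAt
  have h2 := h1.clm_comp (hasFDerivAt_const (U.toContinuousLinearEquiv : E3 →L[ℝ] E3) x)
  rw [h2.fderiv]
  simp

end

/-- the Hessian as a matrix -/
noncomputable def HM (F : E3 → ℝ) (u : E3) : Matrix (Fin 3) (Fin 3) ℝ :=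
  Matrix.of fun i j => hessEntry F u i j

lemma curv_eq (F : E3 → ℝ) (u : E3) :
    curvatureFunction F u = ((HM F u).trace ^ 2 - (HM F u * HM F u).trace) / 2 := by
  simp only [curvatureFunction, HM, Matrix.trace, Matrix.diag, Matrix.mul_apply, Matrix.of_apply,
    Fin.sum_univ_three]
  ring

lemma curv_comp {F : E3 → ℝ} (U : E3 ≃ₗᵢ[ℝ] E3) (hF : IsSupp F) {u : E3} (hu : u ≠ 0) :
    curvatureFunction (fun x => F (U x)) u = curvatureFunction F (U u) := by
  set P : Matrix (Fin 3) (Fin 3) ℝ := Matrix.of fun k i => (U (ev i)) k with hP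
  have hPP : P.transpose * P = 1 := by
    ext i j
    rw [Matrix.mul_apply]
    have h1 : inner ℝ (U (ev i)) (U (ev j)) = inner ℝ (ev i) (ev j) := U.inner_map_map _ _
    have h2 : inner ℝ (U (ev i)) (U (ev j)) = ∑ k, P.transpose i k * P k j := by
      rw [PiLp.inner_apply]
      apply Finset.sum_congr rfl
      intro k _
      simp [hP, mul_comm]
    rw [← h2, h1]
    simp [ev, EuclideanSpace.inner_single_left, Matrix.one_apply]
  have hPP' : P * P.transpose = 1 := mul_eq_one_comm.1 hPP
  have hM : HM (fun x => F (U x)) u = P.transpose * HM F (U u) * P := by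
    ext i j
    have e1 : HM (fun x => F (U x)) u i j = fderiv ℝ (fderiv ℝ F) (U u) (U (ev i)) (U (ev j)) :=
      fd2 U hF hu (ev i) (ev j)
    rw [e1, Matrix.mul_apply]
    conv_lhs => rw [E3_eq (U (ev i)), E3_eq (U (ev j))]
    simp only [Matrix.mul_apply, Fin.sum_univ_three, hP, HM, Matrix.of_apply,
      Matrix.transpose_apply, hess_eq, map_add, map_smul, ContinuousLinearMap.add_apply,
      ContinuousLinearMap.smul_apply, smul_eq_mul]
    ring
  rw [curv_eq, curv_eq, hM]
  have t1 : (P.transpose * HM F (U u) * P).trace = (HM F (U u)).trace := by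
    rw [Matrix.trace_mul_comm, ← Matrix.mul_assoc, hPP', Matrix.one_mul]
  have t2 : (P.transpose * HM F (U u) * P * (P.transpose * HM F (U u) * P)).trace =
      (HM F (U u) * HM F (U u)).trace := by
    have e : P.transpose * HM F (U u) * P * (P.transpose * HM F (U u) * P) =
        P.transpose * (HM F (U u) * HM F (U u)) * P := by
      calc P.transpose * HM F (U u) * P * (P.transpose * HM F (U u) * P)
          = P.transpose * HM F (U u) * (P * P.transpose) * HM F (U u) * P := by
            simp only [Matrix.mul_assoc]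
        _ = _ := by rw [hPP', Matrix.mul_one]; simp only [Matrix.mul_assoc]
    rw [e, Matrix.trace_mul_comm, ← Matrix.mul_assoc, hPP', Matrix.one_mul]
  rw [t1, t2]

lemma exU (a : E3) (ha : ‖a‖ = 1) : ∃ U : E3 ≃ₗᵢ[ℝ] E3, U (ev 2) = a := by
  refine ⟨(Submodule.span ℝ {ev 2 - a})ᗮ.reflection, ?_⟩
  exact Submodule.reflection_sub (by rw [ha]; simp [ev])

lemma inner_ev2 (x : E3) : inner ℝ (ev 2) x = x 2 := by
  simp [ev, EuclideanSpace.inner_single_left]

lemma axi_comp {F : E3 → ℝ} {a : E3} (U : E3 ≃ₗᵢ[ℝ] E3) (hU : U (ev 2) = a) (hA : AxiA a F) :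
    Axi (fun x => F (U x)) := by
  intro x y h1 h2
  apply hA
  · rw [← hU, U.inner_map_map, U.inner_map_map, inner_ev2, inner_ev2, h1]
  · rw [U.norm_map, U.norm_map, h2]

/-- the curvature function of a hedgehog of revolution is rotationally symmetric on the sphere -/
lemma curv_axi {F : E3 → ℝ} {a : E3} (hF : IsSupp F) (hA : AxiA a F) {u v : E3}
    (hu : ‖u‖ = 1) (hv : ‖v‖ = 1) (huv : inner ℝ a u = inner ℝ a v) :
    curvatureFunction F u = curvatureFunction F v := by
  by_cases h : u = v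
  · rw [h]
  -- the reflection exchanging u and v fixes a
  set U : E3 ≃ₗᵢ[ℝ] E3 := (Submodule.span ℝ {u - v})ᗮ.reflection with hU
  have h1 : U u = v := Submodule.reflection_sub (by rw [hu, hv])
  have h2 : U a = a := by
    apply Submodule.reflection_mem_subspace_eq_self
    rw [Submodule.mem_orthogonal_singleton_iff_inner_right]
    rw [inner_sub_left, real_inner_comm a u, real_inner_comm a v, huv, sub_self]
  have h3 : (fun x => F (U x)) = F := by
    funext x
    apply hA
    · conv_lhs => rw [← h2]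
      rw [U.inner_map_map]
    · rw [U.norm_map]
  have hu0 : u ≠ 0 := by intro h0; rw [h0, norm_zero] at hu; exact zero_ne_one hu
  have h4 := curv_comp U hF hu0
  rw [h3, h1] at h4
  exact h4

end Pool.Agent.HH.Rev
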