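import Mathlib
import Pool.Agent.Lib.MP_7dc3d9_gt.Revol2

set_option autoImplicit false

/-! Hedgehogs of revolution: two axes, constant curvature function, and the final theorem. -/

namespace Pool.Agent.HH.Rev

open Set Real Filter Topology

/-- a function on the sphere which is symmetric about two different axes is constant -/
lemma two_axes (ρ : E3 → ℝ) (b : E3) (hb : ‖b‖ = 1) (hb1 : b ≠ ev 2) (hb2 : b ≠ -ev 2)
    (h1 : ∀ u v : E3, ‖u‖ = 1 → ‖v‖ = 1 → u 2 = v 2 → ρ u = ρ v)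
    (h2 : ∀ u v : E3, ‖u‖ = 1 → ‖v‖ = 1 → inner ℝ b u = inner ℝ b v → ρ u = ρ v) :
    ∀ u v : E3, ‖u‖ = 1 → ‖v‖ = 1 → ρ u = ρ v := by
  have hbs : b 0 ^ 2 + b 1 ^ 2 + b 2 ^ 2 = 1 := by rw [← norm_sq3, hb]; norm_num
  have hpos : 0 < b 0 ^ 2 + b 1 ^ 2 := by
    rcases lt_or_eq_of_le (show 0 ≤ b 0 ^ 2 + b 1 ^ 2 by positivity) with h | h
    · exact h
    exfalso
    have h0 : b 0 = 0 := by nlinarith [sq_nonneg (b 0), sq_nonneg (b 1)]
    have h1' : b 1 = 0 := by nlinarith [sq_nonneg (b 0), sq_nonneg (b 1)]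
    have h3 : (b 2 - 1) * (b 2 + 1) = 0 := by rw [h0, h1'] at hbs; nlinarith
    rcases mul_eq_zero.1 h3 with h4 | h4
    · apply hb1
      rw [E3_eq b, h0, h1', show b 2 = 1 by linarith]; simp
    · apply hb2
      rw [E3_eq b, h0, h1', show b 2 = -1 by linarith]; simp
  set σ : ℝ := √(b 0 ^ 2 + b 1 ^ 2) with hσ
  have hσ0 : 0 < σ := sqrt_pos.2 hpos
  have hσ2 : σ ^ 2 = b 0 ^ 2 + b 1 ^ 2 := sq_sqrt hpos.le
  -- the points
  set w : ℝ → ℝ → ℝ → E3 := fun s y z =>
    ((b 0 * y - b 1 * z) / σ) • ev 0 + ((b 1 * y + b 0 * z) / σ) • ev 1 + s • ev 2 with hw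
  have w2 : ∀ s y z, (w s y z) 2 = s := fun s y z => by simp [hw, ev_apply]
  have wn : ∀ s y z, s ^ 2 + y ^ 2 + z ^ 2 = 1 → ‖w s y z‖ = 1 := by
    intro s y z h
    have e : ‖w s y z‖ ^ 2 = 1 := by
      rw [norm_sq3]
      have e0 : (w s y z) 0 = (b 0 * y - b 1 * z) / σ := by simp [hw, ev_apply]
      have e1 : (w s y z) 1 = (b 1 * y + b 0 * z) / σ := by simp [hw, ev_apply]
      rw [e0, e1, w2, div_pow, div_pow, ← add_div]
      have : (b 0 * y - b 1 * z) ^ 2 + (b 1 * y + b 0 * z) ^ 2 = σ ^ 2 * (y ^ 2 + z ^ 2) := by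
        rw [hσ2]; ring
      rw [this, mul_div_cancel_left₀ _ (pow_ne_zero 2 hσ0.ne')]
      linarith
    have h0 := norm_nonneg (w s y z)
    nlinarith
  have wb : ∀ s y z, inner ℝ b (w s y z) = b 2 * s + σ * y := by
    intro s y z
    have e0 : (w s y z) 0 = (b 0 * y - b 1 * z) / σ := by simp [hw, ev_apply]
    have e1 : (w s y z) 1 = (b 1 * y + b 0 * z) / σ := by simp [hw, ev_apply]
    rw [PiLp.inner_apply, Fin.sum_univ_three, e0, e1, w2]
    simp only [RCLike.inner_apply, conj_trivial]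
    field_simp
    linear_combination (-y) * hσ2
  set f : ℝ → ℝ := fun s => ρ (w s 0 (√(1 - s ^ 2))) with hf
  have L : ∀ s s' : ℝ, s ^ 2 ≤ 1 → s' ^ 2 + (b 2 * (s - s') / σ) ^ 2 ≤ 1 → f s = f s' := by
    intro s s' hs hs'
    set y := b 2 * (s - s') / σ with hy
    set z := √(1 - s' ^ 2 - y ^ 2) with hz
    have hz2 : z ^ 2 = 1 - s' ^ 2 - y ^ 2 := sq_sqrt (by linarith)
    have n1 : ‖w s' y z‖ = 1 := wn _ _ _ (by rw [hz2]; ring)
    have n2 : ‖w s 0 (√(1 - s ^ 2))‖ = 1 := wn _ _ _ (by rw [sq_sqrt (by linarith)]; ring)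
    have n3 : ‖w s' 0 (√(1 - s' ^ 2))‖ = 1 := wn _ _ _ (by
      rw [sq_sqrt (by nlinarith [sq_nonneg y])]; ring)
    have a1 : ρ (w s 0 (√(1 - s ^ 2))) = ρ (w s' y z) := h2 _ _ n2 n1 (by
      rw [wb, wb, hy]; field_simp; ring)
    have a2 : ρ (w s' y z) = ρ (w s' 0 (√(1 - s' ^ 2))) := h1 _ _ n1 n3 (by rw [w2, w2])
    exact a1.trans a2
  have hloc : ∀ s : ℝ, s ^ 2 < 1 → f =ᶠ[𝓝 s] fun _ => f s := by
    intro s hs
    have hc : ContinuousAt (fun s' : ℝ => s' ^ 2 + (b 2 * (s - s') / σ) ^ 2) s := by fun_prop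
    have hlt : (fun s' : ℝ => s' ^ 2 + (b 2 * (s - s') / σ) ^ 2) s < 1 := by simpa using hs
    filter_upwards [hc.eventually_lt continuousAt_const hlt] with s' hs'
    exact (L s s' hs.le hs'.le).symm
  have hIoo : ∀ s s' : ℝ, s ^ 2 < 1 → s' ^ 2 < 1 → s < s' → f s' = f s := by
    intro s s' hs hs' hlt
    have hall : ∀ x ∈ Icc s s', x ^ 2 < 1 := by
      intro x hx
      rw [sq_lt_one_iff_abs_lt_one] at hs hs' ⊢
      rw [abs_lt] at hs hs' ⊢
      exact ⟨lt_of_lt_of_le hs.1 hx.1, lt_of_le_of_lt hx.2 hs'.2⟩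
    have hd : ∀ x ∈ Icc s s', HasDerivAt f 0 x := fun x hx =>
      (hloc x (hall x hx)).hasDerivAt_iff.2 (hasDerivAt_const x (f x))
    exact constant_of_has_deriv_right_zero (fun x hx => (hd x hx).continuousAt.continuousWithinAt)
      (fun x hx => (hd x (Ico_subset_Icc_self hx)).hasDerivWithinAt) s' ⟨hlt.le, le_refl _⟩
  have hf0 : ∀ s : ℝ, s ^ 2 < 1 → f s = f 0 := by
    intro s hs
    rcases lt_trichotomy s 0 with h | h | h
    · exact (hIoo s 0 hs (by norm_num) h).symm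
    · rw [h]
    · exact hIoo 0 s (by norm_num) hs h
  have hb2lt : b 2 ^ 2 < 1 := by linarith
  have hfall : ∀ s : ℝ, s ^ 2 ≤ 1 → f s = f 0 := by
    intro s hs
    rcases lt_or_eq_of_le hs with h | h
    · exact hf0 s h
    have hkey : (s * b 2 ^ 2) ^ 2 + (b 2 * (s - s * b 2 ^ 2) / σ) ^ 2 ≤ 1 := by
      have e : (b 2 * (s - s * b 2 ^ 2) / σ) ^ 2 = b 2 ^ 2 * (1 - b 2 ^ 2) := by
        rw [div_pow, hσ2, show b 0 ^ 2 + b 1 ^ 2 = 1 - b 2 ^ 2 by linarith]
        have : (1 - b 2 ^ 2) ≠ 0 := by linarith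
        field_simp
        linear_combination (b 2 ^ 2) * h
      rw [e]
      have e2 : (s * b 2 ^ 2) ^ 2 = (b 2 ^ 2) ^ 2 := by rw [mul_pow, h, one_mul]
      rw [e2]
      nlinarith [sq_nonneg (b 2)]
    rw [L s (s * b 2 ^ 2) hs hkey]
    apply hf0
    rw [mul_pow, h, one_mul]
    nlinarith [sq_nonneg (b 2)]
  have hall : ∀ u : E3, ‖u‖ = 1 → ρ u = f 0 := by
    intro u hu
    have hus : u 0 ^ 2 + u 1 ^ 2 + u 2 ^ 2 = 1 := by rw [← norm_sq3, hu]; norm_num
    have h3 : u 2 ^ 2 ≤ 1 := by nlinarith [sq_nonneg (u 0), sq_nonneg (u 1)]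
    rw [← hfall (u 2) h3]
    exact h1 _ _ hu (wn _ _ _ (by rw [sq_sqrt (by linarith)]; ring)) (by rw [w2])
  intro u v hu hv
  rw [hall u hu, hall v hv]

/-- derivative of the norm away from the origin -/
lemma hasFDerivAt_nrm (x : E3) (hx : x ≠ 0) :
    HasFDerivAt (fun z : E3 => ‖z‖) (‖x‖⁻¹ • innerSL ℝ x) x := by
  have h0 : ‖x‖ ≠ 0 := norm_ne_zero_iff.mpr hx
  have h1 : HasFDerivAt (fun z : E3 => ‖z‖ ^ 2) (2 • innerSL ℝ x) x :=
    (hasStrictFDerivAt_norm_sq x).hasFDerivAt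
  have h2 := h1.sqrt (by positivity)
  have h3 : (fun z : E3 => √(‖z‖ ^ 2)) = fun z => ‖z‖ := by
    funext z; exact Real.sqrt_sq (norm_nonneg z)
  rw [h3] at h2
  refine h2.congr_fderiv ?_
  rw [Real.sqrt_sq (norm_nonneg x)]
  ext v
  simp
  field_simp

lemma supp_norm (k : ℝ) : IsSupp (fun x : E3 => k * ‖x‖) := by
  refine ⟨fun x c hc => ?_, ?_⟩
  · rw [norm_smul, Real.norm_of_nonneg hc.le]; ring
  · exact contDiffOn_const.mul fun x hx => (contDiffAt_norm ℝ hx).contDiffWithinAt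

lemma axi_norm (k : ℝ) : Axi (fun x : E3 => k * ‖x‖) := fun x y _ h => by simp only [h]

lemma X_norm (k φ : ℝ) : X (fun x : E3 => k * ‖x‖) φ = k * cos φ := by
  unfold X
  have h := (hasFDerivAt_nrm (me φ) (me_ne φ)).const_mul k
  rw [h.fderiv, norm_me]
  have e : inner ℝ (me φ) (ev 0) = cos φ := by
    rw [real_inner_comm]; simp [ev, me, EuclideanSpace.inner_single_left]
  simp [e]

/-- a hedgehog of revolution with constant curvature function is a round sphere -/
lemma sphere_case {F : E3 → ℝ} (hF : IsSupp F) (aF : Axi F) (c : ℝ)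
    (hc : ∀ u : E3, ‖u‖ = 1 → curvatureFunction F u = c) :
    0 ≤ c ∧ ∃ b ε : ℝ, (ε = 1 ∨ ε = -1) ∧ ∀ x : E3, F x = ε * √c * ‖x‖ + b * x 2 := by
  have hX2 : ∀ φ ∈ Icc (-(π/2)) (π/2), X F φ ^ 2 = c * cos φ ^ 2 := by
    have hder : ∀ φ, HasDerivAt (fun φ => X F φ ^ 2 - c * cos φ ^ 2) 0 φ := by
      intro φ
      refine ((derivX2 hF aF φ).fun_sub (((hasDerivAt_cos φ).fun_pow 2).const_mul c)).congr_deriv ?_
      rw [hc (me φ) (norm_me φ)]
      norm_num
      ring
    have hconst := constant_of_has_deriv_right_zero (a := -(π/2)) (b := π/2)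
      (fun x _ => (hder x).continuousAt.continuousWithinAt)
      (fun x _ => (hder x).hasDerivWithinAt)
    intro φ hφ
    have h := hconst φ hφ
    have h0 : X F (-(π/2)) = 0 := pole hF aF _ (by simp)
    rw [h0] at h
    simp at h
    linarith
  have hc0 : 0 ≤ c := by
    have h := hX2 0 ⟨by linarith [pi_pos], by linarith [pi_pos]⟩
    rw [cos_zero] at h
    nlinarith [sq_nonneg (X F 0)]
  refine ⟨hc0, ?_⟩
  have hfin : ∀ k : ℝ, (∀ φ ∈ Icc (-(π/2)) (π/2), X F φ = k * cos φ) →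
      ∃ b : ℝ, ∀ x : E3, F x = k * ‖x‖ + b * x 2 := by
    intro k hk
    obtain ⟨b, hb⟩ := lin_of_X (supp_sub hF (supp_norm k))
      (fun x y h1 h2 => by simp only [aF x y h1 h2, axi_norm k x y h1 h2])
      (fun φ hφ => by rw [X_sub hF (supp_norm k), X_norm, hk φ hφ, sub_self])
    exact ⟨b, fun x => by have := hb x; simp only at this; linarith⟩
  rcases hc0.eq_or_lt with h | h
  · obtain ⟨b, hb⟩ := hfin 0 (fun φ hφ => by
      have := hX2 φ hφ
      rw [← h, zero_mul] at this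
      rw [zero_mul]
      exact pow_eq_zero_iff (two_ne_zero) |>.1 this)
    exact ⟨b, 1, Or.inl rfl, fun x => by rw [hb x, ← h]; simp⟩
  · have hs : 0 < √c := sqrt_pos.2 h
    have hcX : ContinuousOn (X F) (Ioo (-(π/2)) (π/2)) := fun φ _ =>
      (derivX hF φ).continuousAt.continuousWithinAt
    have hcc : ContinuousOn (fun φ => √c * cos φ) (Ioo (-(π/2)) (π/2)) := by fun_prop
    have hends : ∀ φ ∈ Icc (-(π/2)) (π/2), cos φ = 0 → X F φ = 0 := fun φ _ h0 =>
      pole hF aF φ h0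
    have hcase : ∀ ε : ℝ, (∀ φ ∈ Ioo (-(π/2)) (π/2), X F φ = ε * √c * cos φ) →
        ∀ φ ∈ Icc (-(π/2)) (π/2), X F φ = ε * √c * cos φ := by
      intro ε hε φ hφ
      rcases hφ.1.eq_or_lt with h1 | h1
      · rw [pole hF aF φ (by rw [← h1]; simp), ← h1]; simp
      rcases hφ.2.eq_or_lt with h2 | h2
      · rw [pole hF aF φ (by rw [h2]; simp), h2]; simp
      · exact hε φ ⟨h1, h2⟩
    rcases isPreconnected_Ioo.eq_or_eq_neg_of_sq_eq hcX hcc (fun φ hφ => by
        simp only [Pi.pow_apply]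
        rw [hX2 φ (Ioo_subset_Icc_self hφ), mul_pow, sq_sqrt h.le])
        (fun {φ} hφ => (mul_pos hs (cos_pos_of_mem_Ioo hφ)).ne') with h1 | h1
    · obtain ⟨b, hb⟩ := hfin (1 * √c) (hcase 1 fun φ hφ => by rw [h1 hφ, one_mul])
      exact ⟨b, 1, Or.inl rfl, hb⟩
    · obtain ⟨b, hb⟩ := hfin (-1 * √c) (hcase (-1) fun φ hφ => by
        rw [h1 hφ]; simp)
      exact ⟨b, -1, Or.inr rfl, hb⟩

lemma axiA_neg {F : E3 → ℝ} {a : E3} (h : AxiA (-a) F) : AxiA a F := fun x y h1 h2 =>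
  h x y (by rw [inner_neg_left, inner_neg_left, h1]) h2

/-- conclusion from equality up to a linear function -/
lemma congr_of_lin {F G : E3 → ℝ} (hG : IsSupp G) (v : E3)
    (h : ∀ x, F x = G x + inner ℝ v x) : ∃ Φ : E3 ≃ᵢ E3, Φ '' hedgehog G = hedgehog F := by
  refine ⟨IsometryEquiv.addRight v, ?_⟩
  have hgrad : ∀ u ∈ Metric.sphere (0 : E3) 1, gradient F u = gradient G u + v := by
    intro u hu
    have hu0 : u ≠ 0 := by
      intro h; rw [h] at hu; simp at hu
    have e : F = fun x => G x + inner ℝ v x := funext h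
    rw [e]
    exact grad_add_lin G _ u (dif hG hu0)
  simp only [hedgehog]
  rw [Set.image_image]
  exact Set.image_congr fun u hu => by rw [hgrad u hu]; rfl

/-- a hedgehog of revolution (any axis) with constant curvature function -/
lemma sphere_caseA {F : E3 → ℝ} {a : E3} (ha : ‖a‖ = 1) (hF : IsSupp F) (aF : AxiA a F) (c : ℝ)
    (hc : ∀ u : E3, ‖u‖ = 1 → curvatureFunction F u = c) :
    0 ≤ c ∧ ∃ (v : E3) (ε : ℝ), (ε = 1 ∨ ε = -1) ∧
      ∀ x : E3, F x = ε * √c * ‖x‖ + inner ℝ v x := by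
  obtain ⟨U, hU⟩ := exU a ha
  obtain ⟨h0, b, ε, hε, h⟩ := sphere_case (supp_comp U hF) (axi_comp U hU aF) c (fun u hu => by
    have hu0 : u ≠ 0 := by intro h0; rw [h0, norm_zero] at hu; exact zero_ne_one hu
    rw [curv_comp U hF hu0]
    exact hc _ (by rw [U.norm_map, hu]))
  refine ⟨h0, b • a, ε, hε, fun x => ?_⟩
  have h1 := h (U.symm x)
  rw [U.apply_symm_apply, U.symm.norm_map] at h1
  rw [h1, inner_smul_left]
  have : (U.symm x) 2 = inner ℝ a x := by
    rw [← inner_ev2, ← hU, ← U.inner_map_map, U.apply_symm_apply]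
  rw [this]; simp

/-- curvature preserving families of hedgehogs of revolution, the axis may depend on `t` -/
theorem fam_axes (H : ℝ → E3 → ℝ) (a : ℝ → E3) (hH : ∀ t ∈ Icc (0:ℝ) 1, IsSupp (H t))
    (ha : ∀ t ∈ Icc (0:ℝ) 1, ‖a t‖ = 1)
    (aH : ∀ t ∈ Icc (0:ℝ) 1, AxiA (a t) (H t))
    (hc : ∀ x : E3, x ≠ 0 → ContinuousOn (fun t => fderiv ℝ (H t) x) (Icc 0 1))
    (hR : ∀ t ∈ Icc (0 : ℝ) 1, ∀ u ∈ Metric.sphere (0 : E3) 1,
      curvatureFunction (H t) u = curvatureFunction (H 0) u) :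
    ∀ t ∈ Icc (0 : ℝ) 1, ∃ v : E3, ∀ x, H t x = H 0 x + inner ℝ v x := by
  intro t ht
  have h01 : (0:ℝ) ∈ Icc (0:ℝ) 1 := ⟨le_refl _, zero_le_one⟩
  have hR' : ∀ s ∈ Icc (0 : ℝ) 1, ∀ u : E3, ‖u‖ = 1 →
      curvatureFunction (H s) u = curvatureFunction (H 0) u := fun s hs u hu =>
    hR s hs u (by simpa using hu)
  by_cases hconst : ∃ c, ∀ u : E3, ‖u‖ = 1 → curvatureFunction (H 0) u = c
  · -- constant curvature function
    obtain ⟨c, hcc⟩ := hconst
    have hall : ∀ s ∈ Icc (0:ℝ) 1, 0 ≤ c ∧ ∃ (v : E3) (ε : ℝ), (ε = 1 ∨ ε = -1) ∧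
        ∀ x : E3, H s x = ε * √c * ‖x‖ + inner ℝ v x := fun s hs =>
      sphere_caseA (ha s hs) (hH s hs) (aH s hs) c (fun u hu => by rw [hR' s hs u hu, hcc u hu])
    have hc0 : 0 ≤ c := (hall t ht).1
    obtain ⟨-, v, ε, hε, hv⟩ := hall t ht
    obtain ⟨-, v0, ε0, hε0, hv0⟩ := hall 0 h01
    have hsame : ε * √c = ε0 * √c := by
      rcases hc0.eq_or_lt with h | h
      · rw [← h]; simp
      have hs : 0 < √c := sqrt_pos.2 h
      set g : ℝ → ℝ := fun s => H s (ev 0) + H s (-ev 0) with hg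
      have hg1 : ∀ s ∈ Icc (0:ℝ) 1, ∀ (w : E3) (δ : ℝ),
          (∀ x : E3, H s x = δ * √c * ‖x‖ + inner ℝ w x) → g s = 2 * (δ * √c) := by
        intro s _ w δ hw
        simp only [hg]
        rw [hw, hw, norm_neg, inner_neg_right]
        have : ‖ev 0‖ = 1 := by simp [ev]
        rw [this]; ring
      have e0 : ev 0 ≠ 0 := by
        intro h; have : ‖ev 0‖ = 1 := by simp [ev]
        rw [h, norm_zero] at this; exact zero_ne_one this
      have hgc : ContinuousOn g (Icc 0 1) := by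
        have k1 : ContinuousOn (fun s => fderiv ℝ (H s) (ev 0) (ev 0) +
            fderiv ℝ (H s) (-ev 0) (-ev 0)) (Icc 0 1) :=
          ((hc _ e0).clm_apply continuousOn_const).add
            ((hc _ (neg_ne_zero.2 e0)).clm_apply continuousOn_const)
        refine k1.congr fun s hs' => ?_
        simp only [hg]
        rw [euler (hH s hs') e0, euler (hH s hs') (neg_ne_zero.2 e0)]
      have hsq : EqOn (g ^ 2) ((fun _ => g 0) ^ 2) (Icc 0 1) := by
        intro s hs'
        obtain ⟨-, w, δ, hδ, hw⟩ := hall s hs'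
        simp only [Pi.pow_apply]
        rw [hg1 s hs' w δ hw, hg1 0 h01 v0 ε0 hv0]
        rcases hδ with h1 | h1 <;> rcases hε0 with h2 | h2 <;> rw [h1, h2] <;> ring
      have hg0 : g 0 ≠ 0 := by
        rw [hg1 0 h01 v0 ε0 hv0]
        rcases hε0 with h2 | h2 <;> rw [h2] <;> nlinarith
      have hgt := hg1 t ht v ε hv
      have hg00 := hg1 0 h01 v0 ε0 hv0
      rcases isPreconnected_Icc.eq_or_eq_neg_of_sq_eq hgc (continuousOn_const (c := g 0)) hsq
        (fun _ => hg0) with h1 | h1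
      · have := h1 ht
        simp only at this
        linarith
      · have := h1 h01
        simp only [Pi.neg_apply] at this
        exfalso; apply hg0; linarith
    refine ⟨v - v0, fun x => ?_⟩
    rw [hv x, hv0 x, hsame, inner_sub_left]; ring
  · -- all the axes agree
    have hax : ∀ s ∈ Icc (0:ℝ) 1, AxiA (a 0) (H s) := by
      intro s hs
      obtain ⟨U, hU⟩ := exU (a 0) (ha 0 h01)
      by_contra hne
      apply hconst
      have hk := two_axes (fun x => curvatureFunction (H 0) (U x)) (U.symm (a s))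
        (by rw [U.symm.norm_map, ha s hs])
        (by
          intro h
          apply hne
          have : a s = a 0 := by rw [← hU, ← h, U.apply_symm_apply]
          rw [← this]; exact aH s hs)
        (by
          intro h
          apply hne
          apply axiA_neg
          have : a s = -a 0 := by rw [← hU, ← map_neg, ← h, U.apply_symm_apply]
          rw [← this]; exact aH s hs)
        (fun u v hu hv h => curv_axi (hH 0 h01) (aH 0 h01) (by rw [U.norm_map, hu])
          (by rw [U.norm_map, hv]) (by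
            rw [← hU, U.inner_map_map, U.inner_map_map, inner_ev2, inner_ev2, h]))
        (fun u v hu hv h => by
          have hu' : ‖U u‖ = 1 := by rw [U.norm_map, hu]
          have hv' : ‖U v‖ = 1 := by rw [U.norm_map, hv]
          rw [← hR' s hs _ hu', ← hR' s hs _ hv']
          refine curv_axi (hH s hs) (aH s hs) hu' hv' ?_
          rw [← U.symm.inner_map_map, ← U.symm.inner_map_map (a s), U.symm_apply_apply,
            U.symm_apply_apply, h])
      refine ⟨curvatureFunction (H 0) (ev 0), fun u hu => ?_⟩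
      have := hk (U.symm u) (U.symm (ev 0)) (by rw [U.symm.norm_map, hu])
        (by rw [U.symm.norm_map]; simp [ev])
      simp only [U.apply_symm_apply] at this
      exact this
    obtain ⟨U, hU⟩ := exU (a 0) (ha 0 h01)
    have hfam := fam (fun s x => H s (U x)) (fun s hs => supp_comp U (hH s hs))
      (fun s hs => axi_comp U hU (hax s hs))
      (fun x hx => by
        have : ∀ s, fderiv ℝ (fun x => H s (U x)) x = (fderiv ℝ (H s) (U x)).comp
          (U.toContinuousLinearEquiv : E3 →L[ℝ] E3) := fun s => fd1 U x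
        simp only [this]
        exact (hc (U x) (U_ne U hx)).clm_comp continuousOn_const)
      (fun s hs u hu => by
        have hu1 : ‖u‖ = 1 := by simpa using hu
        have hu0 : u ≠ 0 := by intro h0; rw [h0, norm_zero] at hu1; exact zero_ne_one hu1
        rw [curv_comp U (hH s hs) hu0, curv_comp U (hH 0 h01) hu0]
        exact hR' s hs _ (by rw [U.norm_map, hu1])) t ht
    obtain ⟨⟨b, hb⟩, -⟩ := hfam
    refine ⟨b • a 0, fun x => ?_⟩
    have h1 := hb (U.symm x)
    simp only [U.apply_symm_apply] at h1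
    rw [h1, inner_smul_left]
    have : (U.symm x) 2 = inner ℝ (a 0) x := by
      rw [← inner_ev2, ← hU, ← U.inner_map_map, U.apply_symm_apply]
    rw [this]; simp

end Pool.Agent.HH.Rev

namespace Pool.Agent.HH.Rev

open Set Real

lemma f1_zero {F : E3 → ℝ} (hF : IsSupp F) (hA : Axi F) (φ : ℝ) :
    fderiv ℝ F (me φ) (ev 1) = 0 := by
  by_cases hc : cos φ = 0
  · have b0 := rotB hF hA (me_ne φ) (ev 0)
    rw [Jme, J0, hc] at b0
    simpa using b0
  · have a := rotA hF hA (me_ne φ)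
    rw [Jme, map_smul, smul_eq_mul] at a
    rcases mul_eq_zero.1 a with h | h
    · exact absurd h hc
    · exact h

/-- for every unit vector `u` there is a frame with `U e₂ = a` and `u` on the meridian -/
lemma exU2 (a u : E3) (ha : ‖a‖ = 1) (hu : ‖u‖ = 1) :
    ∃ (U : E3 ≃ₗᵢ[ℝ] E3) (φ : ℝ), φ ∈ Icc (-(π/2)) (π/2) ∧ U (ev 2) = a ∧ U (me φ) = u := by
  obtain ⟨U, hU⟩ := exU a ha
  have hq : |inner ℝ a u| ≤ 1 := by
    have := abs_real_inner_le_norm a u
    rwa [ha, hu, one_mul] at this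
  have hq2 := abs_le.1 hq
  set φ := arcsin (inner ℝ a u) with hφ
  have hw : inner ℝ a (U (me φ)) = inner ℝ a u := by
    conv_lhs => rw [← hU]
    rw [U.inner_map_map, inner_ev2]
    simp only [me]
    simp [ev_apply, hφ, sin_arcsin hq2.1 hq2.2]
  set V : E3 ≃ₗᵢ[ℝ] E3 := (Submodule.span ℝ {U (me φ) - u})ᗮ.reflection with hV
  have h1 : V (U (me φ)) = u := Submodule.reflection_sub (by rw [U.norm_map, norm_me, hu])
  have h2 : V a = a := by
    apply Submodule.reflection_mem_subspace_eq_self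
    rw [Submodule.mem_orthogonal_singleton_iff_inner_right]
    rw [inner_sub_left, real_inner_comm a (U (me φ)), real_inner_comm a u, hw, sub_self]
  exact ⟨U.trans V, φ, arcsin_mem_Icc _, by rw [LinearIsometryEquiv.trans_apply, hU, h2],
    by rw [LinearIsometryEquiv.trans_apply, h1]⟩

/-- two hedgehogs of revolution with the same axis and the same curvature function: the components
orthogonal to the axis agree up to sign -/
theorem pairs {F G : E3 → ℝ} (a : E3) (ha : ‖a‖ = 1) (hF : IsSupp F) (hG : IsSupp G)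
    (aF : AxiA a F) (aG : AxiA a G)
    (hR : ∀ u ∈ Metric.sphere (0 : E3) 1, curvatureFunction F u = curvatureFunction G u)
    (u w : E3) (hu : ‖u‖ = 1) (hw : inner ℝ a w = 0) :
    (inner ℝ (gradient F u) w) ^ 2 = (inner ℝ (gradient G u) w) ^ 2 := by
  obtain ⟨U, φ, hφ, hUa, hUu⟩ := exU2 a u ha hu
  have hRU : ∀ v ∈ Metric.sphere (0 : E3) 1,
      curvatureFunction (fun x => F (U x)) v = curvatureFunction (fun x => G (U x)) v := by
    intro v hv
    have hv1 : ‖v‖ = 1 := by simpa using hv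
    have hv0 : v ≠ 0 := by intro h0; rw [h0, norm_zero] at hv1; exact zero_ne_one hv1
    rw [curv_comp U hF hv0, curv_comp U hG hv0]
    exact hR _ (by simp [U.norm_map, hv1])
  have hsq := sq_eq (supp_comp U hF) (supp_comp U hG) (axi_comp U hUa aF) (axi_comp U hUa aG)
    hRU hφ
  set v := U.symm w with hv
  have hUv : U v = w := U.apply_symm_apply w
  have hv2 : v 2 = 0 := by
    rw [← inner_ev2, ← U.inner_map_map, hUa, hUv, hw]
  have key : ∀ {K : E3 → ℝ}, IsSupp K → AxiA a K →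
      inner ℝ (gradient K u) w = v 0 * X (fun x => K (U x)) φ := by
    intro K hK aK
    have e1 : inner ℝ (gradient K u) w = fderiv ℝ K u w := by
      simp [gradient]
    have e2 : fderiv ℝ (fun x => K (U x)) (me φ) v = fderiv ℝ K u w := by
      rw [fd1, hUu]; simp [hUv]
    rw [e1, ← e2]
    conv_lhs => rw [E3_eq v, hv2]
    have e3 := f1_zero (supp_comp U hK) (axi_comp U hUa aK) φ
    rw [map_add, map_add, map_smul, map_smul, e3]
    simp [X]
  rw [key hF aF, key hG aG, mul_pow, mul_pow, hsq]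

end Pool.Agent.HH.Rev
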