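import Pool.Agent.Lib.MP_7dc3d9_gt.Deg

set_option autoImplicit false
set_option linter.unusedSimpArgs false

open MvPolynomial

namespace Pool.Agent.Lib.MP_7dc3d9_gt

/-- `X₀² + X₁² + X₂²` -/
noncomputable def rho : MvPolynomial (Fin 3) ℝ := X 0 ^ 2 + X 1 ^ 2 + X 2 ^ 2

lemma finSucc_rho (c : ℝ) : finSuccEquiv ℝ 2 (rho - C c) =
    Polynomial.X ^ 2 + Polynomial.C (X 0 ^ 2 + X 1 ^ 2 - C c) := by
  have h1 : (1 : Fin 3) = Fin.succ (0 : Fin 2) := rfl
  have h2 : (2 : Fin 3) = Fin.succ (1 : Fin 2) := rfl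
  have hC : finSuccEquiv ℝ 2 (C c) = Polynomial.C (C c) := by
    simp [finSuccEquiv_apply]
  simp only [rho, map_sub, map_add, map_pow]
  rw [finSuccEquiv_X_zero, h1, h2, finSuccEquiv_X_succ, finSuccEquiv_X_succ, hC]
  ring

lemma rho_sub_dvd (Q : MvPolynomial (Fin 3) ℝ)
    (h : ∀ u : Fin 3 → ℝ, u 0 ^ 2 + u 1 ^ 2 + u 2 ^ 2 = 1 → eval u Q = 0) :
    rho - C 1 ∣ Q := by
  set m : Polynomial (MvPolynomial (Fin 2) ℝ) :=
    Polynomial.X ^ 2 + Polynomial.C (X 0 ^ 2 + X 1 ^ 2 - C 1) with hm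
  have hmonic : m.Monic := Polynomial.monic_X_pow_add_C _ (by norm_num)
  have hmdeg : m.natDegree = 2 := Polynomial.natDegree_X_pow_add_C
  have hm1 : m ≠ 1 := by
    intro h1; rw [h1, Polynomial.natDegree_one] at hmdeg; norm_num at hmdeg
  set r := (finSuccEquiv ℝ 2 Q) %ₘ m with hr
  have hrdeg : r.natDegree < 2 := by
    exact lt_of_lt_of_eq
      (Polynomial.natDegree_modByMonic_lt (finSuccEquiv ℝ 2 Q) hmonic hm1) hmdeg
  obtain ⟨b, a, hab⟩ := Polynomial.exists_eq_X_add_C_of_natDegree_le_one (Nat.lt_succ_iff.mp hrdeg)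
  -- evaluation of the remainder on the sphere
  have hev : ∀ (y : ℝ) (s : Fin 2 → ℝ), y ^ 2 + s 0 ^ 2 + s 1 ^ 2 = 1 →
      eval s b * y + eval s a = 0 := by
    intro y s hys
    have e1 := eval_eq_eval_mv_eval' s y Q
    have e2 : eval (Fin.cons y s : Fin 3 → ℝ) Q = 0 := by
      apply h
      have t1 : (Fin.cons y s : Fin 3 → ℝ) 1 = s 0 := rfl
      have t2 : (Fin.cons y s : Fin 3 → ℝ) 2 = s 1 := rfl
      rw [t1, t2, Fin.cons_zero]
      exact hys
    rw [e2, ← Polynomial.modByMonic_add_div (finSuccEquiv ℝ 2 Q) m, ← hr, hab] at e1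
    rw [Polynomial.map_add, Polynomial.eval_add, Polynomial.map_mul, Polynomial.eval_mul] at e1
    have e3 : Polynomial.eval y (Polynomial.map (eval s) m) = 0 := by
      rw [hm]
      simp
      linarith
    rw [e3, zero_mul, add_zero] at e1
    simp at e1
    linarith
  have hab0 : ∀ s ∈ Set.pi Set.univ (fun _ : Fin 2 => Set.Ioo (0 : ℝ) (1 / 2)),
      eval s a = 0 ∧ eval s b = 0 := by
    intro s hs
    have h0 := hs 0 (Set.mem_univ _)
    have h1 := hs 1 (Set.mem_univ _)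
    simp only [Set.mem_Ioo] at h0 h1
    have hpos : 0 < 1 - s 0 ^ 2 - s 1 ^ 2 := by nlinarith
    have hsq : √(1 - s 0 ^ 2 - s 1 ^ 2) ^ 2 = 1 - s 0 ^ 2 - s 1 ^ 2 :=
      Real.sq_sqrt hpos.le
    have hy : 0 < √(1 - s 0 ^ 2 - s 1 ^ 2) := Real.sqrt_pos.mpr hpos
    have e1 := hev (√(1 - s 0 ^ 2 - s 1 ^ 2)) s (by rw [hsq]; ring)
    have e2 := hev (-√(1 - s 0 ^ 2 - s 1 ^ 2)) s (by rw [neg_sq, hsq]; ring)
    have ha : eval s a = 0 := by linarith
    refine ⟨ha, ?_⟩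
    rw [ha, add_zero] at e1
    exact (mul_eq_zero.mp e1).resolve_right hy.ne'
  have ha : a = 0 := by
    refine funext_set (fun _ : Fin 2 => Set.Ioo (0 : ℝ) (1 / 2))
      (fun _ => Set.Ioo_infinite (by norm_num)) fun s hs => ?_
    rw [(hab0 s hs).1, map_zero]
  have hb : b = 0 := by
    refine funext_set (fun _ : Fin 2 => Set.Ioo (0 : ℝ) (1 / 2))
      (fun _ => Set.Ioo_infinite (by norm_num)) fun s hs => ?_
    rw [(hab0 s hs).2, map_zero]
  have hr0 : r = 0 := by rw [hab, ha, hb]; simp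
  have hdvd : m ∣ finSuccEquiv ℝ 2 Q := (Polynomial.modByMonic_eq_zero_iff_dvd hmonic).mp hr0
  rw [hm, ← finSucc_rho 1] at hdvd
  exact (map_dvd_iff (finSuccEquiv ℝ 2)).mp hdvd

lemma prime_rho : Prime rho := by
  have hirr : Irreducible (Polynomial.X ^ 2 + Polynomial.C (X 0 ^ 2 + X 1 ^ 2) :
      Polynomial (MvPolynomial (Fin 2) ℝ)) := by
    have hmonic : (Polynomial.X ^ 2 + Polynomial.C (X 0 ^ 2 + X 1 ^ 2) :
      Polynomial (MvPolynomial (Fin 2) ℝ)).Monic := Polynomial.monic_X_pow_add_C _ (by norm_num)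
    have hdeg : (Polynomial.X ^ 2 + Polynomial.C (X 0 ^ 2 + X 1 ^ 2) :
      Polynomial (MvPolynomial (Fin 2) ℝ)).natDegree = 2 := Polynomial.natDegree_X_pow_add_C
    rw [hmonic.irreducible_iff_roots_eq_zero_of_degree_le_three (by rw [hdeg])
      (by rw [hdeg]; norm_num), Multiset.eq_zero_iff_forall_notMem]
    intro y hy
    have h1 := Polynomial.isRoot_of_mem_roots hy
    simp only [Polynomial.IsRoot, Polynomial.eval_add, Polynomial.eval_pow, Polynomial.eval_X,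
      Polynomial.eval_C] at h1
    have h2 := congrArg (eval (fun _ : Fin 2 => (1 : ℝ))) h1
    simp at h2
    nlinarith [sq_nonneg (eval (fun _ : Fin 2 => (1 : ℝ)) y)]
  have hp := hirr.prime
  have h0 := finSucc_rho 0
  rw [C_0, sub_zero, C_0, sub_zero] at h0
  rw [← h0] at hp
  exact (MulEquiv.prime_iff (finSuccEquiv ℝ 2)).mp hp

lemma rho_ne_zero : rho ≠ 0 := prime_rho.ne_zero

lemma LF_rho : LF 2 (rho - C 1) rho := by
  have hX : ∀ i : Fin 3, LF 2 (X i ^ 2 : MvPolynomial (Fin 3) ℝ) (X i ^ 2) := by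
    intro i
    have : (X i ^ 2 : MvPolynomial (Fin 3) ℝ).IsHomogeneous 2 := by
      simpa using (isHomogeneous_X ℝ i).pow 2
    exact ⟨this.totalDegree_le, homogeneousComponent_eq_self this⟩
  have hC : LF 2 (C 1 : MvPolynomial (Fin 3) ℝ) 0 :=
    ⟨by rw [totalDegree_C]; norm_num, by
      apply homogeneousComponent_eq_zero; rw [totalDegree_C]; norm_num⟩
  have := (((hX 0).add (hX 1)).add (hX 2)).sub hC
  rw [sub_zero] at this
  exact this

lemma totalDegree_rho_sub : (rho - C 1).totalDegree = 2 := by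
  refine le_antisymm LF_rho.1 ?_
  by_contra hlt
  push Not at hlt
  have := homogeneousComponent_eq_zero 2 _ hlt
  rw [LF_rho.2] at this
  exact rho_ne_zero this

/-- A polynomial of degree at most `m` which vanishes on the unit sphere has its degree `m`
part divisible by `rho`. -/
lemma rho_dvd_lead (Q f : MvPolynomial (Fin 3) ℝ) (m : ℕ) (hQ : LF m Q f)
    (h : ∀ u : Fin 3 → ℝ, u 0 ^ 2 + u 1 ^ 2 + u 2 ^ 2 = 1 → eval u Q = 0) : rho ∣ f := by
  obtain ⟨S, hS⟩ := rho_sub_dvd Q h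
  by_cases hS0 : S = 0
  · have : f = 0 := by rw [← hQ.2, hS, hS0, mul_zero, map_zero]
    rw [this]; exact dvd_zero _
  · have hr : (rho - C 1) ≠ 0 := by
      intro h0
      have := totalDegree_rho_sub
      rw [h0, totalDegree_zero] at this
      norm_num at this
    have hd : Q.totalDegree = 2 + S.totalDegree := by
      rw [hS, totalDegree_mul_of_isDomain hr hS0, totalDegree_rho_sub]
    have hle : 2 + S.totalDegree ≤ m := hd ▸ hQ.1
    obtain ⟨k, rfl⟩ := Nat.exists_eq_add_of_le (show 2 ≤ m by omega)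
    have hSk : LF k S (homogeneousComponent k S) := ⟨by omega, rfl⟩
    have hQ2 := LF_rho.mul hSk
    rw [← hS] at hQ2
    rw [← hQ.2, hQ2.2]
    exact dvd_mul_right _ _

end Pool.Agent.Lib.MP_7dc3d9_gt
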